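import Pool.Agent.L0h4.TW.Fac

/-!
# The Selmer systems of the twists of `X_0(49)` by `D ≡ 2, 3 mod 4`: definitions and statements

`𝔭 = (aR)`, `𝔭̄ = (1 - aR)`; `m i j` is the symbol of the element `π i` at the place `π j`.
-/

set_option autoImplicit false

namespace Pool.Agent.L0h23.ED

open Pool.Agent.Y698 Pool.Agent.Y698.SG Pool.Agent.L0h4.TW

/-- `χ₈` at `𝔭` of an element congruent to one modulo `𝔭²` -/
noncomputable def lam (x : RR) : ZMod 2 :=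
  open Classical in if aR ^ 3 ∣ x - 1 then 0 else 1

/-- `χ₈` at `𝔭̄` of an element prime to `𝔭̄` -/
noncomputable def lab (x : RR) : ZMod 2 :=
  open Classical in if (1 - aR) ^ 3 ∣ x - 1 ∨ (1 - aR) ^ 3 ∣ x + 1 then 0 else 1

/-- the laws at two -/
structure S_R2 : Prop where
  lam_mul : ∀ x y : RR, N1 x → N1 y → lam (x * y) = lam x + lam y
  lab_mul : ∀ x y : RR, ¬ (1 - aR) ∣ x → ¬ (1 - aR) ∣ y → lab (x * y) = lab x + lab y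
  sy_b : ∀ (x : RR) (p : ℕ), D2 x p ∨ D1 x p → lg (sy x (aR - 1)) = lab x
  sy_two : ∀ (x : RR) (p : ℕ), D2 x p ∨ D1 x p → lg (sy x 2) = lam x + lab x
  nt0 : ∀ (x : RR) (p : ℕ), D2 x p ∨ D1 x p → ((1 - aR) ^ 2 ∣ x - 1 ↔ nt x = 0)
  nt1 : ∀ (x : RR) (p : ℕ), D2 x p ∨ D1 x p → ((1 - aR) ^ 2 ∣ x + 1 ↔ nt x = 1)

variable {ι : Type} [DecidableEq ι]

/-- the Selmer system for `D ≡ 3 mod 4` (`s`: sign, `z`: exponent of `aR - 1`, `e`: exponent of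
`-√-7`, `x i`: exponent of `π i`; `L = 1` if `D ≡ 7 mod 8` and `0` if `D ≡ 3 mod 8`) has only the
trivial solutions -/
def Sys3 (I : Finset ι) (L : ZMod 2) (n l lb m7 : ι → ZMod 2) (m : ι → ι → ZMod 2) : Prop :=
  ∀ (s z e : ZMod 2) (x : ι → ZMod 2),
    z + e + ∑ i ∈ I, l i * x i = L * s →
    s + L * z + e + ∑ i ∈ I, n i * x i = 0 →
    (∀ j ∈ I, s * n j + z * lb j + e * m7 j + ∑ i ∈ I.erase j, m i j * x i +
      x j * (n j + m7 j + ∑ i ∈ I.erase j, m i j) = 0) →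
    (s = 0 ∧ z = 0 ∧ e = 0 ∧ ∀ i ∈ I, x i = 0) ∨ (s = 1 ∧ z = 0 ∧ e = 1 ∧ ∀ i ∈ I, x i = 1)

/-- the Selmer system for `D = 2 M`, `M` odd (`nb = 1` if `M ≡ 3 mod 4`, `w = 1` if `M ≡ ±3 mod 8`) -/
def SysE (I : Finset ι) (nb w : ZMod 2) (n l lb m7 : ι → ZMod 2) (m : ι → ι → ZMod 2) : Prop :=
  ∀ (z e : ZMod 2) (x : ι → ZMod 2),
    z + e + ∑ i ∈ I, l i * x i = 0 →
    w * z + e * (1 + nb) + ∑ i ∈ I, (lb i + nb * n i) * x i = 0 →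
    (∀ j ∈ I, z * lb j + e * m7 j + ∑ i ∈ I.erase j, m i j * x i +
      x j * (l j + lb j + nb * n j + m7 j + ∑ i ∈ I.erase j, m i j) = 0) →
    z = 0 ∧ e = 0 ∧ ∀ i ∈ I, x i = 0

/-- the coefficients -/
noncomputable def kn {κ : Type} (π : κ → RR) (i : κ) : ZMod 2 := nt (π i)
noncomputable def kl {κ : Type} (π : κ → RR) (i : κ) : ZMod 2 := lam (π i)
noncomputable def kb {κ : Type} (π : κ → RR) (i : κ) : ZMod 2 := lab (π i)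
noncomputable def k7 {κ : Type} (π : κ → RR) (i : κ) : ZMod 2 := lg (sy (π i) (-fR))

/-- the condition for `D = ∏ q ∈ Q ∪ P, q ≡ 3 mod 4` -/
def NS3 (Q P : Finset ℕ) (ϖ : ℕ → RR) (D : ℕ) : Prop :=
  Sys3 (ix Q P) (if D % 8 = 7 then 1 else 0) (kn (pfx Q ϖ)) (kl (pfx Q ϖ)) (kb (pfx Q ϖ))
    (k7 (pfx Q ϖ)) (mr (pfx Q ϖ))

/-- the condition for `D = 2 M`, `M = ∏ q ∈ Q ∪ P, q` -/
def NSE (Q P : Finset ℕ) (ϖ : ℕ → RR) (M : ℕ) : Prop :=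
  SysE (ix Q P) (if M % 4 = 3 then 1 else 0) (if M % 8 = 3 ∨ M % 8 = 5 then 1 else 0)
    (kn (pfx Q ϖ)) (kl (pfx Q ϖ)) (kb (pfx Q ϖ)) (k7 (pfx Q ϖ)) (mr (pfx Q ϖ))

end Pool.Agent.L0h23.ED
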