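import Pool.Agent.L0h23.ED.Mwf
import Pool.Agent.L0h61.EV.R2

/-!
# The algebraic side over `ℚ`, without hypotheses
-/

set_option autoImplicit false

namespace Pool.Agent.L0h23.ED

open Pool.Agent.Y698 Pool.Agent.L0h23.EV
open Pool.Agent.TH841.NF.D (Sha)

lemma rat_Q : ∀ k : ℚ, ∃ u : ℚ, k = u := fun k => ⟨k, by simp⟩

/-- **`D ≡ 3 mod 4`** -/
theorem fin3Q {Q S : Finset ℕ} {ϖ : ℕ → RR} (h : Pool.Agent.L0h4.TW.Dt Q S ϖ) {D : ℕ}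
    (hD : D = ∏ p ∈ Q ∪ S, p) (h4 : D % 4 = 3) (hns : NS3 Q S ϖ D) :
    Finite (WX ℚ D).toAffine.Point ∧ ∀ (x : Sha (WX ℚ D)) (k : ℕ), 2 ^ k • x = 0 → x = 0 := by
  subst hD
  exact fin3 ℚ rat_Q Pool.Agent.L0h61.EV.r2 h h4 hns

/-- **`D ≡ 2 mod 4`** -/
theorem finEQ {Q S : Finset ℕ} {ϖ : ℕ → RR} (h : Pool.Agent.L0h4.TW.Dt Q S ϖ) {D M : ℕ}
    (hM : M = ∏ p ∈ Q ∪ S, p) (hD : D = 2 * M) (hns : NSE Q S ϖ M) :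
    Finite (WX ℚ D).toAffine.Point ∧ ∀ (x : Sha (WX ℚ D)) (k : ℕ), 2 ^ k • x = 0 → x = 0 := by
  subst hD hM
  exact finE ℚ rat_Q Pool.Agent.L0h61.EV.r2 h hns

end Pool.Agent.L0h23.ED
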