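import Pool.Agent.L0h23.ED.Sla

/-!
# The equations of the Selmer system
-/

set_option autoImplicit false
set_option linter.unusedSectionVars false

attribute [-instance] DivisionRing.toRatAlgebra

namespace Pool.Agent.L0h23.ED

open Pool.Agent.Y698 Pool.Agent.Y698.SG Pool.Agent.L0h23.EV
open Pool.Agent.L0h4.TW (D1 D2 N1 nt pfx sy_mul' Od)
open Pool.Agent.W192.HK (sp)
open WithZero NumberField IsDedekindDomain

/-- the local conditions -/
def FH {F : Type} [Field F] [NumberField F] (b : F) (D : ℕ) (q : F) : Prop :=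
  ∀ P : HeightOneSpectrum (𝓞 F), FourD D (algebraMap F (P.adicCompletion F) (1 - b))
    (algebraMap F (P.adicCompletion F) q)

section fam
variable {Q S : Finset ℕ} {ϖ : ℕ → RR} (h : Pool.Agent.L0h4.TW.Dt Q S ϖ)
include h

lemma pr_i {i : ℕ × Bool} (hi : i ∈ ix Q S) : Prime (pfx Q ϖ i) := (h.fx.pd i hi).pr

lemma na_prod {T : Finset (ℕ × Bool)} (hT : T ⊆ ix Q S) : ¬ aR ∣ ∏ i ∈ T, pfx Q ϖ i := by
  intro h0
  obtain ⟨j, hj, h2⟩ := (Prime.dvd_finsetProd_iff prime_aR _).1 h0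
  exact odd_a (D12_odd (d12 h (hT hj))) h2

lemma nb_prod {T : Finset (ℕ × Bool)} (hT : T ⊆ ix Q S) : ¬ (1 - aR) ∣ ∏ i ∈ T, pfx Q ϖ i := by
  intro h0
  obtain ⟨j, hj, h2⟩ := (Prime.dvd_finsetProd_iff prime_bR _).1 h0
  exact odd_b (D12_odd (d12 h (hT hj))) h2

lemma cc_odd (s e z : Bool) : nR (cc s e false false) % 2 = 1 ∧ ¬ aR ∣ (cc s e false z) := by
  have h1 : nR (-1 : RR) = 1 := by
    rw [nR_neg]
    unfold nR
    rw [cXY_one.1, cXY_one.2]
    norm_num
  have h0 : nR (1 : RR) = 1 := by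
    unfold nR
    rw [cXY_one.1, cXY_one.2]
    norm_num
  have h7 : nR (-fR) = 7 := by rw [nR_neg, nR_fR]
  have hn : nR (cc s e false false) % 2 = 1 := by
    unfold cc
    rw [nR_mul, nR_mul, nR_mul]
    cases s <;> cases e <;> simp [h0, h1, h7]
  refine ⟨hn, ?_⟩
  intro h3
  have e1 : cc s e false z = cc s e false false * (if z then aR - 1 else 1) := by
    unfold cc
    simp
  rw [e1] at h3
  rcases prime_aR.dvd_or_dvd h3 with h4 | h4
  · exact odd_a hn h4
  · cases z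
    · simp only [Bool.false_eq_true, if_false] at h4
      exact prime_aR.not_isUnit (isUnit_of_dvd_one h4)
    · simp only [if_true] at h4
      rw [dvd_a1, map_sub, r8_aR, map_one] at h4
      revert h4
      decide

lemma na_G {T : Finset (ℕ × Bool)} (hT : T ⊆ ix Q S) (s e z : Bool) :
    ¬ aR ∣ cc s e false z * ∏ i ∈ T, pfx Q ϖ i := by
  intro h0
  rcases prime_aR.dvd_or_dvd h0 with h1 | h1
  · exact (cc_odd h s e z).2 h1
  · exact na_prod h hT h1

lemma nb_G {T : Finset (ℕ × Bool)} (hT : T ⊆ ix Q S) (s e : Bool) :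
    ¬ (1 - aR) ∣ cc s e false false * ∏ i ∈ T, pfx Q ϖ i := by
  intro h0
  rcases prime_bR.dvd_or_dvd h0 with h1 | h1
  · exact odd_b (cc_odd h s e false).1 h1
  · exact nb_prod h hT h1

lemma c5_G {T : Finset (ℕ × Bool)} (hT : T ⊆ ix Q S) (s e z : Bool) :
    ∃ c : ZMod 8, C5 c (bz e + bz z + ∑ i ∈ T, kl (pfx Q ϖ) i) ∧
      r8 (cc s e false z * ∏ i ∈ T, pfx Q ϖ i) = (if s then -1 else 1) * c := by
  refine ⟨r8 (if e then -fR else 1) * r8 (if z then aR - 1 else 1) * r8 (∏ i ∈ T, pfx Q ϖ i),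
    ?_, ?_⟩
  · refine C5.mul (C5.mul ?_ ?_) (C5.prod T fun i hi => c5_pfx h (hT hi))
    · cases e
      · simp only [Bool.false_eq_true, if_false, map_one]
        decide
      · have e1 : r8 (-fR) = 5 := by
          unfold fR
          rw [map_neg, map_sub, map_mul, r8_aR, map_ofNat, map_one]
          decide
        simp only [if_true, e1]
        decide
    · cases z
      · simp only [Bool.false_eq_true, if_false, map_one]
        decide
      · have e1 : r8 (aR - 1) = 5 := by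
          rw [map_sub, r8_aR, map_one]
          decide
        simp only [if_true, e1]
        decide
  · unfold cc
    rw [map_mul, map_mul, map_mul, map_mul]
    cases s <;> simp [mul_assoc]

lemma c8_G (hR : S_R2) {T : Finset (ℕ × Bool)} (hT : T ⊆ ix Q S) (s e : Bool) :
    C8 (s8 (cc s e false false * ∏ i ∈ T, pfx Q ϖ i)) (bz s + bz e + ∑ i ∈ T, kn (pfx Q ϖ) i)
      (bz e + ∑ i ∈ T, kb (pfx Q ϖ) i) := by
  rw [map_mul]
  refine C8.mul ?_ (C8.prod T fun i hi => c8_pfx hR h (hT hi))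
  have e1 : s8 (-fR) = 3 := by
    unfold fR
    rw [map_neg, map_sub, map_mul, s8_aR, map_ofNat, map_one]
    decide
  unfold cc
  rw [map_mul, map_mul, map_mul]
  cases s <;> cases e <;> simp only [Bool.false_eq_true, if_false, if_true, map_one, map_neg, e1] <;>
    decide

end fam

section main
variable {F : Type} [Field F] [NumberField F] {b : F} (E : FE b)
  {Q S : Finset ℕ} {ϖ : ℕ → RR} (h : Pool.Agent.L0h4.TW.Dt Q S ϖ) {D : ℕ} {q : F}

include E h

/-- the global class -/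
theorem glob (hDM : D = ∏ p ∈ Q ∪ S, p ∨ D = 2 * ∏ p ∈ Q ∪ S, p) (hq : q ≠ 0) (hf : FH b D q) :
    ∃ (s e y z : Bool) (T : Finset (ℕ × Bool)), T ⊆ ix Q S ∧
      SqE q (ev b E.hb (cc s e y z * ∏ i ∈ T, pfx Q ϖ i)) := by
  obtain ⟨u, v, huv⟩ := E.hF q
  obtain ⟨g, hg⟩ := exists_RR E.hb u v
  rw [← huv] at hg
  have hg0 : g ≠ 0 := by
    rintro rfl
    obtain ⟨z', -, h'⟩ := hg
    rw [map_zero, zero_mul] at h'
    exact hq h'
  obtain ⟨s, e, y, z, T, hT, hT'⟩ := cls E.hb E.big (ix Q S) (pfx Q ϖ) (fun i hi => pr_i h hi) hg0 (by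
    rintro w ⟨P, rfl⟩ h7 hb1 hb2 hi
    have h2 : P.valuation F 2 = 1 := by
      rw [← ab_eq E.hb, map_mul, hb1, hb2, one_mul]
    have hM : P.valuation F ((∏ p ∈ Q ∪ S, p : ℕ) : F) = 1 := by
      have h3 : P.valuation F (ev b E.hb (∏ i ∈ ix Q S, pfx Q ϖ i)) = 1 := by
        rw [map_prod, map_prod]
        exact Finset.prod_eq_one hi
      have h4 : P.valuation F (ev b E.hb ((∏ p ∈ Q ∪ S, p : ℕ) : RR)) = 1 := by
        rcases prod_sgn' h with ⟨-, h4⟩ | ⟨-, h4⟩ <;> rw [h4]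
        · exact h3
        · rw [neg_one_mul, map_neg, Valuation.map_neg]
          exact h3
      rwa [map_natCast] at h4
    have hD0 : D ≠ 0 := by
      rintro rfl
      have h5 : ∏ p ∈ Q ∪ S, p = 0 := by
        rcases hDM with h5 | h5 <;> omega
      rw [h5] at hM
      simp at hM
    have hD : P.valuation F (D : F) = 1 := by
      rcases hDM with rfl | rfl
      · exact hM
      · rw [Nat.cast_mul, map_mul, hM, mul_one]
        exact_mod_cast h2
    exact ((odd_P E.hb P hD0 h2 h7 hq (hf P)).1 hD).sqE hg.symm)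
  exact ⟨s, e, y, z, T, hT, hg.trans hT'⟩

/-- the exponent of `aR` -/
theorem y_false {P : HeightOneSpectrum (𝓞 F)} (hP : P.valuation F b < 1)
    (hev : Ev (P.valuation F) q) {s e y z : Bool} {T : Finset (ℕ × Bool)} (hT : T ⊆ ix Q S)
    (hqT : SqE q (ev b E.hb (cc s e y z * ∏ i ∈ T, pfx Q ϖ i))) : y = false := by
  cases y
  · rfl
  exfalso
  obtain ⟨hvb, -⟩ := val_b E.hb (E.two hP) hP
  have hva : P.valuation F (ev b E.hb aR) = exp (-1) := by rw [ev_aR]; exact hvb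
  have h1 := unit_val E.hb prime_aR hva (na_G h hT s e z)
  have e1 : cc s e true z * ∏ i ∈ T, pfx Q ϖ i =
      aR * (cc s e false z * ∏ i ∈ T, pfx Q ϖ i) := by
    unfold cc
    simp only [if_true, Bool.false_eq_true, if_false]
    ring
  rw [e1] at hqT
  obtain ⟨z', hz', h2⟩ := hev.sqE hqT.symm
  refine ev_odd_val hz' h2 (k := -1) ?_
  rw [map_mul, map_mul, hva, h1, mul_one]
  congr 1

/-- the equation at the place where `b` is not a unit -/
theorem eqA (hD : D % 4 = 3 ∨ D % 4 = 2) (hf : FH b D q) {s e z : Bool} {T : Finset (ℕ × Bool)}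
    (hT : T ⊆ ix Q S) (hqT : SqE q (ev b E.hb (cc s e false z * ∏ i ∈ T, pfx Q ϖ i))) :
    ∃ c : ZMod 8, C5 c (bz e + bz z + ∑ i ∈ T, kl (pfx Q ϖ) i) ∧
      ((if s then -1 else 1) * c = 1 ∨
        (D % 4 = 3 ∧ (D : ZMod 8) * 5 * ((if s then -1 else 1) * c) = 1)) := by
  obtain ⟨P, hP⟩ := E.pl prime_aR
  rw [ev_aR] at hP
  obtain ⟨c, hc, hr⟩ := c5_G h hT s e z
  refine ⟨c, hc, ?_⟩
  have e1 : r8 (-fR) = 5 := by
    unfold fR
    rw [map_neg, map_sub, map_mul, r8_aR, map_ofNat, map_one]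
    decide
  rcases cong_a E.hb E.hF P (E.two hP) hP hD hqT (hf P) (na_G h hT s e z) with h1 | ⟨h1, h2⟩
  · left
    rw [← hr, h1]
  · right
    refine ⟨h1, ?_⟩
    rw [← hr, ← h2, map_mul r8 ((D : RR) * (-fR)), map_mul r8 (D : RR), map_natCast, e1]

/-- the equation at the place where `1 - b` is not a unit -/
theorem eqB (hR : S_R2) (hD : D % 4 = 3 ∨ D % 4 = 2) (hf : FH b D q) {s e z : Bool}
    {T : Finset (ℕ × Bool)} (hT : T ⊆ ix Q S)
    (hqT : SqE q (ev b E.hb (cc s e false z * ∏ i ∈ T, pfx Q ϖ i))) :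
    ∃ U : RR, C8 (s8 U) (bz s + bz e + ∑ i ∈ T, kn (pfx Q ϖ) i)
        (bz e + ∑ i ∈ T, kb (pfx Q ϖ) i) ∧
      (D % 4 = 3 → (z = false → s8 U = 1 ∨ s8 U = 5) ∧ (z = true → 2 * s8 U = 1 + 3 * D)) ∧
      (D % 4 = 2 → (z = false → s8 U = 1 ∨ s8 U = 1 + 3 * D) ∧
        (z = true → 10 * s16 U = 11 * D ∨ 10 * s16 U = 4 + 11 * D)) := by
  obtain ⟨P, hP⟩ := E.pl prime_bR
  rw [map_sub, map_one, ev_aR] at hP
  refine ⟨_, c8_G h hR hT s e, ?_⟩
  have hn := nb_G h hT s e
  set U := cc s e false false * ∏ i ∈ T, pfx Q ϖ i with hU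
  obtain ⟨k1, k2⟩ := cong_b E.hb E.hF P (E.conj.two hP) hP hD hqT (hf P)
  have e0 : z = false → cc s e false z * ∏ i ∈ T, pfx Q ϖ i = U := by
    rintro rfl
    rfl
  have e1 : z = true → cc s e false z * ∏ i ∈ T, pfx Q ϖ i = (aR - 1) * U := by
    rintro rfl
    rw [hU]
    unfold cc
    simp only [if_true, Bool.false_eq_true, if_false]
    ring
  constructor
  · intro h3
    obtain ⟨a1, a2⟩ := k1 h3
    constructor
    · intro hz
      rw [e0 hz] at a1
      have a3 := a1 hn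
      rw [dvd_b2, map_sub, map_one] at a3
      rcases a3 with a3 | a3
      · left; exact sub_eq_zero.1 a3
      · right
        have : s8 U = 4 + 1 := by rw [← a3]; ring
        rw [this]
        decide
    · intro hz
      exact a2 U (e1 hz) hn
  · intro h3
    obtain ⟨a1, a2⟩ := k2 h3
    constructor
    · intro hz
      rw [e0 hz] at a1
      exact a1 hn
    · intro hz
      exact a2 U (e1 hz) hn

/-- the symbol of the first factor -/
lemma lg_cc (hR : S_R2) (s e z : Bool) {j : ℕ × Bool} (hj : j ∈ ix Q S) :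
    cc s e false z ∉ sp (pfx Q ϖ j) ∧ lg (sy (pfx Q ϖ j) (cc s e false z)) =
      bz s * kn (pfx Q ϖ) j + bz e * k7 (pfx Q ϖ) j + bz z * kb (pfx Q ϖ) j := by
  have hp := pr_i h hj
  have n1 := if_notin hp (neg_notin' h hj) s
  have n2 := if_notin hp (fR_notin' h hj) e
  have n3 := if_notin hp (c_notin h hj) z
  have e1 : cc s e false z = (if s then -1 else 1) * (if e then -fR else 1) *
      (if z then aR - 1 else 1) := by
    unfold cc
    simp only [Bool.false_eq_true, if_false, mul_one]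
  rw [e1]
  refine ⟨mul_notin hp (mul_notin hp n1 n2) n3, ?_⟩
  rw [lgm hp (mul_notin hp n1 n2) n3, lgm hp n1 n2, lg_if hp, lg_if hp, lg_if hp,
    hR.sy_b _ _ (d12 h hj)]
  rfl

/-- the equations at the odd places -/
theorem eqJ (hR : S_R2) (hDM : D = ∏ p ∈ Q ∪ S, p ∨ D = 2 * ∏ p ∈ Q ∪ S, p) (hq : q ≠ 0)
    (hf : FH b D q) {κ : RR} (hκ : (D : RR) = κ * ∏ i ∈ ix Q S, pfx Q ϖ i) {s e z : Bool}
    {T : Finset (ℕ × Bool)} (hT : T ⊆ ix Q S)
    (hqT : SqE q (ev b E.hb (cc s e false z * ∏ i ∈ T, pfx Q ϖ i))) {j : ℕ × Bool}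
    (hj : j ∈ ix Q S) (hκj : κ ∉ sp (pfx Q ϖ j)) :
    bz s * kn (pfx Q ϖ) j + bz z * kb (pfx Q ϖ) j + bz e * k7 (pfx Q ϖ) j +
      ∑ i ∈ (ix Q S).erase j, mr (pfx Q ϖ) i j * (if i ∈ T then 1 else 0) +
      (if j ∈ T then 1 else 0) * (lg (sy (pfx Q ϖ j) κ) + k7 (pfx Q ϖ) j +
        ∑ i ∈ (ix Q S).erase j, mr (pfx Q ϖ) i j) = 0 := by
  classical
  have hp := pr_i h hj
  obtain ⟨P, w1, w2, w7, wM⟩ := E.fam h hj
  have hD0 : D ≠ 0 := by
    rintro rfl
    have h5 : ∏ p ∈ Q ∪ S, p = 0 := by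
      rcases hDM with h5 | h5 <;> omega
    rw [h5, Nat.cast_zero, map_zero] at wM
    exact exp_ne_zero wM.symm
  have wD : P.valuation F (D : F) = exp (-1) := by
    rcases hDM with rfl | rfl
    · exact wM
    · rw [Nat.cast_mul, map_mul, wM]
      have : P.valuation F ((2 : ℕ) : F) = 1 := by exact_mod_cast w2
      rw [this, one_mul]
  have hlt : P.valuation F (ev b E.hb (pfx Q ϖ j)) < 1 := by
    rw [w1, ← exp_zero, exp_lt_exp]
    norm_num
  have hs : ev b E.hb (-fR) = 2 * (1 - b) - 1 := by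
    unfold fR
    rw [map_neg, map_sub, map_mul, map_ofNat, ev_aR, map_one]
    ring
  have hloc := (odd_P E.hb P hD0 w2 w7 hq (hf P)).2 wD
  -- the family without `j`
  have hne : ∀ i ∈ ix Q S, i ≠ j → pfx Q ϖ i ∉ sp (pfx Q ϖ j) := fun i hi hij =>
    h.fx.ne i hi j hj hij
  have hTj : ∀ (U : Finset (ℕ × Bool)), U ⊆ ix Q S → j ∉ U → ∏ i ∈ U, pfx Q ϖ i ∉ sp (pfx Q ϖ j) :=
    fun U hU hjU => prod_notin' hp fun i hi => hne i (hU hi) (fun h0 => hjU (h0 ▸ hi))
  have hlgU : ∀ (U : Finset (ℕ × Bool)), U ⊆ ix Q S → j ∉ U →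
      lg (sy (pfx Q ϖ j) (∏ i ∈ U, pfx Q ϖ i)) = ∑ i ∈ U, mr (pfx Q ϖ) i j := fun U hU hjU =>
    lgp hp fun i hi => hne i (hU hi) (fun h0 => hjU (h0 ▸ hi))
  obtain ⟨ncc, lcc⟩ := lg_cc E h hR s e z hj
  have hval : ∀ x : RR, x ∉ sp (pfx Q ϖ j) → P.valuation F (ev b E.hb x) = 1 := fun x hx =>
    unit_val E.hb hp w1 (fun h0 => hx (Ideal.mem_span_singleton.2 h0))
  -- the sum over `T`
  have hsum : ∑ i ∈ (ix Q S).erase j, mr (pfx Q ϖ) i j * (if i ∈ T then 1 else 0) =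
      ∑ i ∈ T.erase j, mr (pfx Q ϖ) i j := by
    have e1 : T.erase j = ((ix Q S).erase j).filter (fun i => i ∈ T) := by
      ext i
      rw [Finset.mem_erase, Finset.mem_filter, Finset.mem_erase]
      constructor
      · rintro ⟨h1, h2⟩
        exact ⟨⟨h1, hT h2⟩, h2⟩
      · rintro ⟨⟨h1, -⟩, h2⟩
        exact ⟨h1, h2⟩
    rw [e1, Finset.sum_filter]
    refine Finset.sum_congr rfl fun i _ => ?_
    split_ifs <;> simp
  rw [hsum]
  by_cases hjT : j ∈ T
  · rw [if_pos hjT, one_mul]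
    have hnot : j ∉ T.erase j := Finset.notMem_erase _ _
    have hTs : T.erase j ⊆ ix Q S := (Finset.erase_subset _ _).trans hT
    have hIs : (ix Q S).erase j ⊆ ix Q S := Finset.erase_subset _ _
    have hIn : j ∉ (ix Q S).erase j := Finset.notMem_erase _ _
    have hT1 := hTj _ hTs hnot
    have hI1 := hTj _ hIs hIn
    rcases hloc with h1 | h1
    · exfalso
      have h2 := (h1.sqE hqT.symm).ev
      obtain ⟨z', hz', h3⟩ := h2
      refine ev_odd_val hz' h3 (k := -1) ?_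
      rw [← Finset.mul_prod_erase T _ hjT, map_mul, map_mul, map_mul, map_mul, hval _ ncc, w1,
        hval _ hT1, one_mul, mul_one]
      congr 1
    · have h2 : Sq (P.valuation F) (ev b E.hb ((D : RR) * (-fR) *
          (cc s e false z * ∏ i ∈ T, pfx Q ϖ i))) := by
        rw [map_mul (ev b E.hb) ((D : RR) * (-fR)), map_mul (ev b E.hb) (D : RR), map_natCast, hs]
        exact h1.sqE ((SqE.refl _).mul hqT.symm)
      set X : RR := κ * (-fR) * cc s e false z * (∏ i ∈ (ix Q S).erase j, pfx Q ϖ i) *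
        (∏ i ∈ T.erase j, pfx Q ϖ i) with hX
      have h3 : (D : RR) * (-fR) * (cc s e false z * ∏ i ∈ T, pfx Q ϖ i) =
          X * pfx Q ϖ j ^ 2 := by
        rw [hκ, ← Finset.mul_prod_erase T _ hjT, ← Finset.mul_prod_erase (ix Q S) _ hj, hX]
        ring
      rw [h3] at h2
      have h4 : Sq (P.valuation F) (ev b E.hb X) := by
        refine h2.sqE ⟨(ev b E.hb (pfx Q ϖ j))⁻¹, inv_ne_zero (ev_ne E.hb hp.ne_zero), ?_⟩
        have := ev_ne E.hb hp.ne_zero
        rw [map_mul (ev b E.hb) X, map_pow]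
        field_simp
      have n1 := mul_notin hp hκj (fR_notin' h hj)
      have n2 := mul_notin hp n1 ncc
      have n3 := mul_notin hp n2 hI1
      have n4 := mul_notin hp n3 hT1
      have h5 := sq_sym E.hb E.hF hp hlt n4 h4
      have h6 := congrArg lg h5
      rw [lg_one, lgm hp n3 hT1, lgm hp n2 hI1, lgm hp n1 ncc, lgm hp hκj (fR_notin' h hj),
        hlgU _ hTs hnot, hlgU _ hIs hIn, lcc] at h6
      have h7 : lg (sy (pfx Q ϖ j) (-fR)) = k7 (pfx Q ϖ) j := rfl
      rw [h7] at h6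
      linear_combination h6
  · rw [if_neg hjT, zero_mul, add_zero, Finset.erase_eq_of_notMem hjT]
    have hT1 := hTj _ hT hjT
    rcases hloc with h1 | h1
    · have h2 := h1.sqE hqT.symm
      have h5 := sq_sym E.hb E.hF hp hlt (mul_notin hp ncc hT1) h2
      have h6 := congrArg lg h5
      rw [lg_one, lgm hp ncc hT1, hlgU _ hT hjT, lcc] at h6
      linear_combination h6
    · exfalso
      have h2 := (h1.sqE ((SqE.refl ((D : F) * (2 * (1 - b) - 1))).mul hqT.symm)).ev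
      obtain ⟨z', hz', h3⟩ := h2
      refine ev_odd_val hz' h3 (k := -1) ?_
      rw [← hs, map_mul, map_mul, map_mul (ev b E.hb), map_mul (P.valuation F), wD,
        hval _ (fR_notin' h hj), hval _ ncc, hval _ hT1, mul_one, mul_one, mul_one]
      congr 1

end main

end Pool.Agent.L0h23.ED
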