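import Pool.Agent.L0h23.ED.Odd
import Pool.Agent.L0h4.TD.Datx
import Pool.Agent.Y698.Fj

/-!
# The field `ℚ(√-7)`, its places, and the family of primes
-/

set_option autoImplicit false
set_option linter.unusedSectionVars false

attribute [-instance] DivisionRing.toRatAlgebra

namespace Pool.Agent.L0h23.ED

open Pool.Agent.Y698 Pool.Agent.Y698.SG Pool.Agent.L0h4.TW Pool.Agent.L0h23.EV
open Pool.Agent.Y279.SG (nR_dvd)
open Pool.Agent.L0h4.TD (sy_oneX)
open Pool.Agent.W192.HK (sp)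
open WithZero NumberField IsDedekindDomain

/-! ### symbols -/

/-- boolean to residue -/
def bz (s : Bool) : ZMod 2 := if s then 1 else 0

section sym
variable {π : RR} (hπ : Prime π)
include hπ

lemma mul_notin {x y : RR} (hx : x ∉ sp π) (hy : y ∉ sp π) : x * y ∉ sp π := by
  rw [Ideal.mem_span_singleton] at hx hy ⊢
  intro h
  rcases hπ.dvd_or_dvd h with h | h
  · exact hx h
  · exact hy h

lemma lgm {x y : RR} (hx : x ∉ sp π) (hy : y ∉ sp π) :
    lg (sy π (x * y)) = lg (sy π x) + lg (sy π y) := by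
  rw [sy_mul' hπ, lg_mul (sy_sgn hx) (sy_sgn hy)]

lemma one_notin : (1 : RR) ∉ sp π := by
  rw [Ideal.mem_span_singleton]
  exact fun h => hπ.not_isUnit (isUnit_of_dvd_one h)

lemma lg_if {x : RR} (s : Bool) : lg (sy π (if s then x else 1)) = bz s * lg (sy π x) := by
  cases s
  · simp [bz, sy_oneX hπ, lg_one]
  · simp [bz]

lemma if_notin {x : RR} (hx : x ∉ sp π) (s : Bool) : (if s then x else 1) ∉ sp π := by
  cases s
  · simpa using one_notin hπ
  · simpa using hx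

lemma prod_notin' {ι : Type} {T : Finset ι} {f : ι → RR} (h : ∀ i ∈ T, f i ∉ sp π) :
    ∏ i ∈ T, f i ∉ sp π := by
  rw [Ideal.mem_span_singleton]
  intro h0
  obtain ⟨j, hj, h2⟩ := (Prime.dvd_finsetProd_iff hπ _).1 h0
  exact h j hj (Ideal.mem_span_singleton.2 h2)

lemma lgp {ι : Type} {T : Finset ι} {f : ι → RR} (h : ∀ i ∈ T, f i ∉ sp π) :
    lg (sy π (∏ i ∈ T, f i)) = ∑ i ∈ T, lg (sy π (f i)) := by
  classical
  induction T using Finset.induction_on with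
  | empty => rw [Finset.prod_empty, Finset.sum_empty, sy_oneX hπ, lg_one]
  | insert i T hi ih =>
    rw [Finset.prod_insert hi, Finset.sum_insert hi, lgm hπ (h i (Finset.mem_insert_self _ _))
      (prod_notin' hπ fun j hj => h j (Finset.mem_insert_of_mem hj)),
      ih fun j hj => h j (Finset.mem_insert_of_mem hj)]

end sym

/-! ### the family -/

section fam
variable {Q P : Finset ℕ} {ϖ : ℕ → RR}

lemma fR_notin' (h : Dt Q P ϖ) {j : ℕ × Bool} (hj : j ∈ ix Q P) : -fR ∉ sp (pfx Q ϖ j) := by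
  have h1 := h.ne (Finset.mem_insert_self (7, false) (ix Q P)) (Finset.mem_insert_of_mem hj)
    (fun h2 => h.ix7 (h2 ▸ hj))
  rwa [pf7_o, h.pf hj] at h1

lemma nR_big {j : ℕ × Bool} {x : RR} (h : D2 x j.1 ∨ D1 x j.1) : 2 < nR x := by
  rcases h with h | h
  · rw [h.nR]
    have h1 := h.inp.pr.two_le
    have h2 := h.inp.odd
    have h3 : (3 : ℤ) ≤ j.1 := by omega
    nlinarith
  · rw [h.nR]
    have h1 := h.pr.two_le
    have h2 := h.odd
    omega

lemma c_notin (h : Dt Q P ϖ) {j : ℕ × Bool} (hj : j ∈ ix Q P) : aR - 1 ∉ sp (pfx Q ϖ j) := by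
  intro h0
  have h1 := nR_dvd h0
  have e : nR (aR - 1) = 2 := by
    have e1 : aR - 1 = -(1 - aR) := by ring
    rw [e1, nR_neg, nR_b]
  rw [e] at h1
  have h2 := Int.le_of_dvd (by norm_num) h1
  have h3 := nR_big (d12 h hj)
  omega

lemma two_notin' (h : Dt Q P ϖ) {j : ℕ × Bool} (hj : j ∈ ix Q P) : (2 : RR) ∉ sp (pfx Q ϖ j) :=
  two_notin (h.fx.pd j hj).odd (h.fx.pd j hj).pr

lemma neg_notin' (h : Dt Q P ϖ) {j : ℕ × Bool} (hj : j ∈ ix Q P) : (-1 : RR) ∉ sp (pfx Q ϖ j) :=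
  neg_one_notin (h.fx.pd j hj).pr

/-- the product of the family -/
theorem prod_sg (h : Dt Q P ϖ) : ∏ i ∈ ix Q P, pfx Q ϖ i =
    ((∏ q ∈ Q ∪ P, sgz q : ℤ) : RR) * ((∏ q ∈ Q ∪ P, q : ℕ) : RR) := by
  rw [Pool.Agent.L0h4.TW.prod_ix h.dis]
  have e1 : ∏ q ∈ Q, pfx Q ϖ (q, false) = ∏ q ∈ Q, (((sgz q : ℤ) : RR) * (q : RR)) :=
    Finset.prod_congr rfl fun q hq => by rw [pfx_Q hq, sg_coe]
  have e2 : ∏ p ∈ P, (pfx Q ϖ (p, false) * pfx Q ϖ (p, true)) =
      ∏ p ∈ P, (((sgz p : ℤ) : RR) * (p : RR)) := by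
    refine Finset.prod_congr rfl fun p hp => ?_
    rw [h.pfx_f hp, h.pfx_t hp, sg_coe]
    have h3 := mul_cj (ϖ p)
    rw [(h.cho p hp).1] at h3
    push_cast at h3
    linear_combination ((sgz p : ℤ) : RR) * h3
  rw [e1, e2, ← Finset.prod_union h.dis, Finset.prod_mul_distrib]
  have e3 : ∏ i ∈ Q ∪ P, ((sgz i : ℤ) : RR) = ((∏ q ∈ Q ∪ P, sgz q : ℤ) : RR) := by
    push_cast
    rfl
  rw [e3]
  push_cast
  ring

/-- the sign -/
theorem prod_sgn' (h : Dt Q P ϖ) : ((∏ q ∈ Q ∪ P, q) % 4 = 1 ∧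
      ((∏ q ∈ Q ∪ P, q : ℕ) : RR) = ∏ i ∈ ix Q P, pfx Q ϖ i) ∨
    ((∏ q ∈ Q ∪ P, q) % 4 = 3 ∧
      ((∏ q ∈ Q ∪ P, q : ℕ) : RR) = -1 * ∏ i ∈ ix Q P, pfx Q ϖ i) := by
  rcases sgz_prod (S := Q ∪ P) (fun q hq => by
      rcases Finset.mem_union.1 hq with h2 | h2
      · exact (h.q q h2).odd
      · exact (h.p q h2).odd) with h2 | h2
  · left
    refine ⟨h2.2, ?_⟩
    rw [prod_sg h, h2.1]
    push_cast
    ring
  · right
    refine ⟨h2.2, ?_⟩
    rw [prod_sg h, h2.1]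
    push_cast
    ring

end fam

/-! ### the field -/

/-- the field `ℚ(√-7)` -/
structure FE {F : Type} [Field F] [NumberField F] (b : F) : Prop where
  hb : b ^ 2 = b - 2
  hF : ∀ x : F, ∃ u v : ℚ, x = u + v * b
  hun : ∀ (P : HeightOneSpectrum (𝓞 F)) (p : ℕ), p.Prime → p ≠ 7 → P.valuation F (p : F) < 1 →
    P.valuation F (p : F) = exp (-1)

section field
variable {F : Type} [Field F] [NumberField F] {b : F} (E : FE b)

include E

lemma FE.conj : FE (1 - b) := by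
  refine ⟨ha_conj E.hb, fun x => ?_, E.hun⟩
  obtain ⟨u, v, h⟩ := E.hF x
  exact ⟨u + v, -v, by rw [h]; push_cast; ring⟩

lemma FE.big : Big b E.hb 1 (Set.range fun P : HeightOneSpectrum (𝓞 F) => P.valuation F) := by
  have key : ∀ g : RR, g ≠ 0 → ¬ IsUnit g →
      ∃ P : HeightOneSpectrum (𝓞 F), P.valuation F (ev b E.hb g) < 1 := by
    intro g hg0 hg
    have h1 : ¬ IsIntegral ℤ (ev b E.hb g)⁻¹ := fun h => hg (unit_of_inv E.hb hg0 h)
    have h3 : ∃ v : HeightOneSpectrum (𝓞 F), 1 < v.valuation F ((ev b E.hb g)⁻¹) := by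
      by_contra hcon
      push Not at hcon
      obtain ⟨y, hy⟩ := HeightOneSpectrum.mem_integers_of_valuation_le_one F _ hcon
      apply h1
      rw [← hy]
      exact y.2
    obtain ⟨v, hv⟩ := h3
    refine ⟨v, ?_⟩
    rw [map_inv₀] at hv
    have hne : v.valuation F (ev b E.hb g) ≠ 0 := by
      rw [Valuation.ne_zero_iff]
      exact ev_ne E.hb hg0
    exact (one_lt_inv₀ (zero_lt_iff.2 hne)).1 hv
  refine ⟨fun g hg => ?_, ?_⟩
  · by_cases hg0 : g = 0
    · obtain ⟨P, -⟩ := key aR prime_aR.ne_zero prime_aR.not_isUnit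
      refine ⟨_, ⟨P, rfl⟩, ?_⟩
      rw [hg0, map_zero, map_zero]
      exact zero_lt_one
    · obtain ⟨P, hP⟩ := key g hg0 hg
      exact ⟨_, ⟨P, rfl⟩, hP⟩
  · rintro w ⟨P, rfl⟩ p hp hp7 _ hlt
    exact E.hun P p hp hp7 hlt

lemma FE.pl {π : RR} (hπ : Prime π) :
    ∃ P : HeightOneSpectrum (𝓞 F), P.valuation F (ev b E.hb π) < 1 := by
  obtain ⟨w, ⟨P, rfl⟩, h⟩ := E.big.ex π hπ.not_isUnit
  exact ⟨P, h⟩

/-- the places above two -/
lemma FE.two {P : HeightOneSpectrum (𝓞 F)} (hP : P.valuation F b < 1) :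
    P.valuation F 2 = exp (-1) := by
  have h1 := w2_of E.hb hP
  exact_mod_cast E.hun P 2 Nat.prime_two (by norm_num) (by exact_mod_cast h1)

lemma FE.seven {P : HeightOneSpectrum (𝓞 F)} {p : ℕ} (hp : p.Prime) (hp7 : p ≠ 7)
    (h : P.valuation F (p : F) < 1) : P.valuation F 7 = 1 := by
  have := w_nat_one (w := P.valuation F) ((Nat.coprime_primes (by norm_num) hp).2 hp7.symm :
    Nat.Coprime 7 p) h
  exact_mod_cast this

/-- the places of the family -/
theorem FE.fam {Q S : Finset ℕ} {ϖ : ℕ → RR} (h : Dt Q S ϖ) {j : ℕ × Bool} (hj : j ∈ ix Q S) :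
    ∃ P : HeightOneSpectrum (𝓞 F), P.valuation F (ev b E.hb (pfx Q ϖ j)) = exp (-1) ∧
      P.valuation F 2 = 1 ∧ P.valuation F 7 = 1 ∧
      P.valuation F ((∏ q ∈ Q ∪ S, q : ℕ) : F) = exp (-1) := by
  have hpi := (h.fx.pd j hj).pr
  obtain ⟨P, hlt⟩ := E.pl hpi
  refine ⟨P, ?_⟩
  set q : ℕ := j.1 with hqdef
  have hk := h.kind hj
  have hqS : q ∈ Q ∪ S := by
    rcases hk with ⟨h1, -⟩ | ⟨h1, -⟩
    · exact Finset.mem_union_left _ h1
    · exact Finset.mem_union_right _ h1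
  have hod := h.od q hqS
  have hdq : pfx Q ϖ j ∣ ((q : ℕ) : RR) := by
    rcases hk with ⟨-, h3⟩ | ⟨-, h3⟩
    · rw [h3.eq]
      exact ⟨sg j.1, by rw [mul_right_comm, sg_sq, one_mul]⟩
    · have h2 := mul_cj (pfx Q ϖ j)
      rw [h3.nR] at h2
      exact ⟨cj (pfx Q ϖ j), by rw [h2]; rfl⟩
  have hwq : P.valuation F (q : F) < 1 := by
    have h2 := (undr_eq E.hb hpi hlt ((q : ℕ) : RR)).2 hdq
    rw [map_natCast] at h2
    exact h2
  have hwq1 : P.valuation F (q : F) = exp (-1) := E.hun P q hod.pr hod.n7 hwq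
  have h2 : P.valuation F 2 = 1 := by
    have := w_nat_one (w := P.valuation F) ((Nat.coprime_primes Nat.prime_two hod.pr).2
      (by rintro h0; have := hod.odd; omega)) hwq
    exact_mod_cast this
  refine ⟨?_, h2, E.seven hod.pr hod.n7 hwq, ?_⟩
  · have hne : ev b E.hb (pfx Q ϖ j) ≠ 0 := ev_ne E.hb hpi.ne_zero
    obtain ⟨m, hm⟩ := vexp (w := P.valuation F) hne
    have hm0 : m < 0 := by
      rw [hm, ← exp_zero, exp_lt_exp] at hlt
      exact hlt
    have hm1 : -1 ≤ m := by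
      obtain ⟨c', hc'⟩ := hdq
      have h2 := congrArg (ev b E.hb) hc'
      rw [map_natCast, map_mul] at h2
      have h3 := congrArg (P.valuation F) h2
      rw [hwq1, map_mul, hm] at h3
      have h4 : exp (-1 : ℤ) ≤ exp m := by
        rw [h3]
        exact mul_le_of_le_one_right' (w_ev E.hb _ c')
      rwa [exp_le_exp] at h4
    rw [hm]
    congr 1
    omega
  · rcases val_prod_exp (w := P.valuation F) (S := Q ∪ S) (fun q hq => (h.od q hq).pr)
      (fun q hq => E.hun P q (h.od q hq).pr (h.od q hq).n7) with h3 | h3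
    · exfalso
      rw [h3.2 q hqS] at hwq
      exact lt_irrefl _ hwq
    · exact h3.1

end field

end Pool.Agent.L0h23.ED
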