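import Pool.Agent.Y698.Vd
import Pool.Agent.L0h23.EV.Two

/-!
# The translation `(x, y) ↦ (x - 7 D, y)` from `y² = x³ - 35 D² x - 98 D³` to
`y² = x³ + 21 D x² + 112 D² x`
-/

set_option autoImplicit false

namespace Pool.Agent.L0h23.ED

open WeierstrassCurve Pool.Agent.Y698 Pool.Agent.L0h23.EV

open Pool.Agent.TH841.SH.D (Pt act Gal Coch IsCoc IsCob LocTriv)

/-- the two curves -/
structure VT {L : Type} [Field L] (δ : L) (W W' : WeierstrassCurve L) : Prop where
  h1 : W.a₁ = 0
  h2 : W.a₂ = 0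
  h3 : W.a₃ = 0
  h4 : W.a₄ = -35 * δ ^ 2
  h6 : W.a₆ = -98 * δ ^ 3
  k1 : W'.a₁ = 0
  k2 : W'.a₂ = 21 * δ
  k3 : W'.a₃ = 0
  k4 : W'.a₄ = 112 * δ ^ 2
  k6 : W'.a₆ = 0

section

variable {L : Type} [Field L] {δ : L} {W W' : WeierstrassCurve L} (S : VT δ W W')

include S in
lemma VT.eqn (x y : L) : W'.toAffine.Equation (x - 7 * δ) y ↔ W.toAffine.Equation x y := by
  rw [Affine.equation_iff, Affine.equation_iff, S.h1, S.h2, S.h3, S.h4, S.h6, S.k1, S.k2, S.k3,
    S.k4, S.k6]
  constructor
  · intro h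
    linear_combination h
  · intro h
    linear_combination h

include S in
lemma VT.negY (x y : L) : W'.toAffine.negY (x - 7 * δ) y = W.toAffine.negY x y := by
  simp only [Affine.negY, S.h1, S.h3, S.k1, S.k3]
  ring

include S in
lemma VT.ns (x y : L) : W'.toAffine.Nonsingular (x - 7 * δ) y ↔ W.toAffine.Nonsingular x y := by
  rw [Affine.nonsingular_iff, Affine.nonsingular_iff, S.eqn]
  refine and_congr_right fun _ => ?_
  rw [S.h1, S.h2, S.h3, S.h4, S.k1, S.k2, S.k3, S.k4]
  rw [← not_and_or, ← not_and_or, not_iff_not]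
  constructor
  · rintro ⟨e1, e2⟩
    exact ⟨by linear_combination e1, by linear_combination e2⟩
  · rintro ⟨e1, e2⟩
    exact ⟨by linear_combination e1, by linear_combination e2⟩

variable [DecidableEq L]

include S in
lemma VT.slope {x₁ x₂ y₁ y₂ : L} (hne : ¬ (x₁ = x₂ ∧ y₁ = W.toAffine.negY x₂ y₂))
    (he1 : W.toAffine.Equation x₁ y₁) (he2 : W.toAffine.Equation x₂ y₂) :
    W'.toAffine.slope (x₁ - 7 * δ) (x₂ - 7 * δ) y₁ y₂ = W.toAffine.slope x₁ x₂ y₁ y₂ := by
  by_cases hx : x₁ = x₂
  · have hy : y₁ ≠ W.toAffine.negY x₂ y₂ := fun h => hne ⟨hx, h⟩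
    have hy' : y₁ ≠ W'.toAffine.negY (x₂ - 7 * δ) y₂ := by rw [S.negY]; exact hy
    rw [Affine.slope_of_Y_ne hx hy, Affine.slope_of_Y_ne (by rw [hx]) hy', S.negY]
    have hyy : y₁ = y₂ := by
      rcases Affine.Y_eq_of_X_eq he1 he2 hx with h | h
      · exact h
      · exact absurd h hy
    subst hx hyy
    rw [S.h1, S.h2, S.h4, S.k1, S.k2, S.k4]
    congr 1
    ring
  · have hx' : x₁ - 7 * δ ≠ x₂ - 7 * δ := by
      intro h
      apply hx
      linear_combination h
    rw [Affine.slope_of_X_ne hx, Affine.slope_of_X_ne hx']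
    congr 1
    ring

/-- the map on points -/
def tF : W.toAffine.Point → W'.toAffine.Point
  | 0 => 0
  | .some x y h => .some (x - 7 * δ) y ((S.ns x y).2 h)

omit [DecidableEq L] in
lemma tF_zero : tF S 0 = 0 := rfl

omit [DecidableEq L] in
lemma tF_some (x y : L) (h : W.toAffine.Nonsingular x y) :
    tF S (.some x y h) = .some (x - 7 * δ) y ((S.ns x y).2 h) := rfl

lemma tF_add (P Q : W.toAffine.Point) : tF S (P + Q) = tF S P + tF S Q := by
  match P, Q with
  | 0, Q => rw [zero_add, tF_zero, zero_add]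
  | .some x y h, 0 => rw [add_zero, tF_zero, add_zero]
  | .some x₁ y₁ h₁, .some x₂ y₂ h₂ =>
    rw [tF_some, tF_some]
    by_cases hxy : x₁ = x₂ ∧ y₁ = W.toAffine.negY x₂ y₂
    · rw [Affine.Point.add_of_Y_eq hxy.1 hxy.2,
        Affine.Point.add_of_Y_eq (by rw [hxy.1]) (by rw [hxy.2, S.negY]), tF_zero]
    · have hxy' : ¬ (x₁ - 7 * δ = x₂ - 7 * δ ∧ y₁ = W'.toAffine.negY (x₂ - 7 * δ) y₂) := by
        rintro ⟨q1, q2⟩
        apply hxy
        refine ⟨by linear_combination q1, ?_⟩
        rwa [S.negY] at q2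
      rw [Affine.Point.add_some hxy, Affine.Point.add_some hxy', tF_some]
      rw [Affine.Point.some.injEq, S.slope hxy h₁.1 h₂.1]
      constructor
      · simp only [Affine.addX, S.h1, S.h2, S.k1, S.k2]
        ring
      · simp only [Affine.addY, Affine.negAddY, Affine.negY, Affine.addX, S.h1, S.h2, S.h3, S.k1,
          S.k2, S.k3]
        ring

omit [DecidableEq L] in
lemma tF_inj : Function.Injective (tF S) := by
  intro P Q h
  match P, Q with
  | 0, 0 => rfl
  | 0, .some x y hn => exact absurd h.symm (Affine.Point.some_ne_zero _)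
  | .some x y hn, 0 => exact absurd h (Affine.Point.some_ne_zero _)
  | .some x₁ y₁ h₁, .some x₂ y₂ h₂ =>
    rw [tF_some, tF_some, Affine.Point.some.injEq] at h
    have e1 : x₁ = x₂ := by linear_combination h.1
    have e2 : y₁ = y₂ := h.2
    subst e1 e2
    rfl

omit [DecidableEq L] in
lemma tF_surj : Function.Surjective (tF S) := by
  intro P
  match P with
  | 0 => exact ⟨0, rfl⟩
  | .some X Y hn =>
    have e1 : X + 7 * δ - 7 * δ = X := by ring
    have hn' : W.toAffine.Nonsingular (X + 7 * δ) Y := by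
      rw [← S.ns, e1]
      exact hn
    refine ⟨.some _ _ hn', ?_⟩
    rw [tF_some, Affine.Point.some.injEq]
    exact ⟨e1, rfl⟩

end

section

variable (K : Type) [Field K] (D : ℕ)

lemma vtd (L : Type) [Field L] [Algebra K L] :
    VT (D : L) ((WX K D).baseChange L) ((EE K D).baseChange L) where
  h1 := map_zero (algebraMap K L)
  h2 := map_zero (algebraMap K L)
  h3 := map_zero (algebraMap K L)
  h4 := by
    show algebraMap K L (-35 * (D : K) ^ 2) = -35 * (D : L) ^ 2
    rw [map_mul, map_pow, map_neg, map_natCast, map_ofNat]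
  h6 := by
    show algebraMap K L (-98 * (D : K) ^ 3) = -98 * (D : L) ^ 3
    rw [map_mul, map_pow, map_neg, map_natCast, map_ofNat]
  k1 := map_zero (algebraMap K L)
  k2 := by
    show algebraMap K L (21 * (D : K)) = 21 * (D : L)
    rw [map_mul, map_natCast, map_ofNat]
  k3 := map_zero (algebraMap K L)
  k4 := by
    show algebraMap K L (112 * (D : K) ^ 2) = 112 * (D : L) ^ 2
    rw [map_mul, map_pow, map_natCast, map_ofNat]
  k6 := map_zero (algebraMap K L)

/-- the isomorphism on points -/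
noncomputable def tP (L : Type) [Field L] [Algebra K L] :
    Pt (WX K D) L →+ Pt (EE K D) L where
  toFun := tF (vtd K D L)
  map_zero' := rfl
  map_add' := @tF_add L _ _ _ _ (vtd K D L) (Classical.decEq L)

lemma tP_inj (L : Type) [Field L] [Algebra K L] : Function.Injective (tP K D L) :=
  tF_inj (vtd K D L)

lemma tP_surj (L : Type) [Field L] [Algebra K L] : Function.Surjective (tP K D L) :=
  tF_surj (vtd K D L)

lemma act_tP {L M : Type} [Field L] [Algebra K L] [Field M]
    [Algebra K M] (φ : L →ₐ[K] M) (P : Pt (WX K D) L) :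
    act (EE K D) φ (tP K D L P) = tP K D M (act (WX K D) φ P) := by
  rcases P with _ | ⟨x, y, h⟩
  · rfl
  · show (Affine.Point.some (φ (x - 7 * (D : L))) (φ y) _ : Pt (EE K D) M) =
      Affine.Point.some (φ x - 7 * (D : M)) (φ y) _
    congr 1
    rw [map_sub, map_mul, map_natCast, map_ofNat]

end

end Pool.Agent.L0h23.ED
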