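import Pool.Agent.L0h23.ED.Shd
import Pool.Agent.L0h23.ED.Tr
import Pool.Agent.Y698.Shbd
import Pool.Agent.Y698.Pu

/-!
# The 2-primary part of the Tate-Shafarevich group and the Mordell-Weil group

After `Pool/Agent/L0h4/TD/Shbdx.lean`.
-/

set_option autoImplicit false
set_option linter.unusedSectionVars false

attribute [-instance] DivisionRing.toRatAlgebra

namespace Pool.Agent.L0h23.ED

open Pool.Agent.Y698 Pool.Agent.L0h23.EV

open WeierstrassCurve IsDedekindDomain NumberField WithZero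

open Pool.Agent.TH841.SH.D (Pt act Gal Coch IsCoc IsCob LocTriv cob)
open Pool.Agent.TH841.NF.D (IsShaCoc shaCoc Sha)
open Pool.Agent.TH841.SH (IsR IsX gf isX_zero isX_some not_isX)
open Pool.Agent.TH841.NF (act_act act_id act_some' pt_ext pt_inj coc_fin)
open Pool.Agent.H437R2.Man.MW (pt_fg)

open scoped Classical

variable {D : ℕ} {K F : Type} [Field K] [NumberField K] [Field F] [NumberField F] [Algebra K F]

lemma loc_tP {f : Coch (WX K D)} {E : Type} [Field E] [CharZero E] [Algebra K E]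
    (h : LocTriv (WX K D) E f) :
    LocTriv (EE K D) E (fun σ => tP K D (Cb K) (f σ)) := by
  intro ι
  obtain ⟨P, hP⟩ := h ι
  refine ⟨tP K D (AlgebraicClosure E) P, fun τ σ hσ => ?_⟩
  rw [act_tP, act_tP, hP τ σ hσ, map_sub]

theorem sha_twoM {a : F} (ha : a ^ 2 = a - 2)
    (hF : ∀ x : F, ∃ k₁ k₂ : K, x = algebraMap K F k₁ + algebraMap K F k₂ * a)
    (hC : MC D a)
    (x : Sha (WX K D)) (hx : x + x = 0) : x = 0 := by
  obtain ⟨f, rfl⟩ := QuotientAddGroup.mk_surjective x
  have hx' : f + f ∈ (cob (WX K D)).addSubgroupOf (shaCoc (WX K D)) :=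
    (QuotientAddGroup.eq_zero_iff (f + f)).1 hx
  rw [AddSubgroup.mem_addSubgroupOf] at hx'
  refine (QuotientAddGroup.eq_zero_iff f).2 ?_
  rw [AddSubgroup.mem_addSubgroupOf]
  obtain ⟨P, hP⟩ := hx'
  have hP1 : ∀ τ : Gal K, (f : Coch (WX K D)) τ + (f : Coch (WX K D)) τ =
    act (WX K D) τ.toAlgHom P - P := hP
  obtain ⟨⟨hlc, hcoc⟩, hloc, -⟩ := f.2
  -- the embedding of `F`
  have halg : Algebra.IsAlgebraic K F := by
    have h1 : IsAlgebraic K a := by
      refine ⟨Polynomial.X ^ 2 - Polynomial.X + Polynomial.C 2, ?_, ?_⟩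
      · intro h
        have h2 := congrArg (fun p => Polynomial.coeff p 2) h
        simp only [Polynomial.coeff_add, Polynomial.coeff_sub, Polynomial.coeff_X_pow,
          Polynomial.coeff_X, Polynomial.coeff_C, Polynomial.coeff_zero] at h2
        norm_num at h2
      · simp only [map_add, map_sub, map_pow, Polynomial.aeval_X, map_ofNat]
        rw [ha]
        ring
    refine ⟨fun x => ?_⟩
    obtain ⟨k₁, k₂, rfl⟩ := hF x
    exact (isAlgebraic_algebraMap k₁).add ((isAlgebraic_algebraMap k₂).mul h1)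
  let κ : F →ₐ[K] Cb K := IsAlgClosed.lift
  let i1 : Algebra F (Cb K) := κ.toRingHom.toAlgebra
  have i2 : IsScalarTower K F (Cb K) := IsScalarTower.of_algebraMap_eq fun x => (κ.commutes x).symm
  have i3 : Algebra.IsAlgebraic F (Cb K) := Algebra.IsAlgebraic.tower_top (K := K) F
  have i4 : IsAlgClosure F (Cb K) := ⟨inferInstance, inferInstance⟩
  have i5 : Normal F (Cb K) := IsAlgClosure.normal F (Cb K)
  have i6 : IsGalois F (Cb K) := { to_isSeparable := inferInstance, to_normal := i5 }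
  -- halving
  have hcK : ∃ c : Cb K, c ^ 2 = c - 2 := ⟨κ a, by rw [← map_pow, ha, map_sub, map_ofNat]⟩
  obtain ⟨c, hc⟩ := hcK
  have hIs := isRD (K := K) hc D
  obtain ⟨hs0, n1, n2, n3⟩ := rAB_ne hC.ne hc
  obtain ⟨Q, hQ⟩ : ∃ Q : Pt (EE K D) (Cb K), tP K D (Cb K) P = Q + Q :=
    hIs.div two_ne_zero n1 n2 n3 (tP K D (Cb K) P)
  have hg : Co2D (D := D) (K := K) (fun τ => tP K D (Cb K) ((f : Coch (WX K D)) τ) -
      (act (EE K D) τ.toAlgHom Q - Q)) := by
    refine ⟨fun τ => ?_, fun σ τ => ?_, ?_, fun v => ?_⟩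
    · have e : ∀ A B D : Pt (EE K D) (Cb K), (A - (B - D)) + (A - (B - D)) =
          (A + A) - ((B + B) - (D + D)) := fun A B D => by abel
      show tP K D (Cb K) ((f : Coch (WX K D)) τ) - (act (EE K D) τ.toAlgHom Q - Q) +
        (tP K D (Cb K) ((f : Coch (WX K D)) τ) - (act (EE K D) τ.toAlgHom Q - Q)) = 0
      rw [e, ← map_add, hP1, ← map_add, ← hQ, map_sub, act_tP, sub_self]
    · show tP K D (Cb K) ((f : Coch (WX K D)) (σ * τ)) - (act (EE K D) (σ * τ).toAlgHom Q - Q) = _
      rw [hcoc, map_add, act_mul', map_sub, map_sub, act_tP]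
      abel
    · obtain ⟨S, hS⟩ := coc_fin (W := WX K D) ⟨hlc, hcoc⟩
      obtain ⟨S', hS'⟩ := fix_fin Q
      refine ⟨S ∪ S', fun τ hτ => ?_⟩
      show tP K D (Cb K) ((f : Coch (WX K D)) τ) - (act (EE K D) τ.toAlgHom Q - Q) = 0
      rw [hS τ (fun x hx => hτ x (Finset.mem_union_left _ hx)), map_zero,
        hS' τ (fun x hx => hτ x (Finset.mem_union_right _ hx)), sub_self, sub_self]
    · have hch : CharZero (v.adicCompletion K) := charC v
      exact loc_sub (loc_tP (hloc v)) Q
  obtain ⟨R, hR⟩ := g_cobD (F := F) hg ha hF hC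
  obtain ⟨R', hR'⟩ := tP_surj K D (Cb K) (Q + R)
  refine ⟨R', fun τ => ?_⟩
  apply tP_inj K D (Cb K)
  have h1 := hR τ
  have h2 : tP K D (Cb K) ((f : Coch (WX K D)) τ) =
      (act (EE K D) τ.toAlgHom R - R) + (act (EE K D) τ.toAlgHom Q - Q) := by
    rw [← h1]
    abel
  rw [h2, map_sub, ← act_tP, hR', map_add]
  abel

/-- the 2-primary part of the Tate-Shafarevich group -/
theorem sha_powM {a : F} (ha : a ^ 2 = a - 2)
    (hF : ∀ x : F, ∃ k₁ k₂ : K, x = algebraMap K F k₁ + algebraMap K F k₂ * a)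
    (hC : MC D a) (x : Sha (WX K D)) (k : ℕ) (hx : 2 ^ k • x = 0) : x = 0 := by
  induction k generalizing x with
  | zero => rwa [pow_zero, one_nsmul] at hx
  | succ k ih =>
    have h1 : 2 ^ k • (x + x) = 0 := by
      rw [← two_nsmul, ← mul_nsmul', ← pow_succ]
      exact hx
    exact sha_twoM ha hF hC x (ih _ h1)

/-- the points over `F` -/
theorem pt_finiteM {a : F} (ha : a ^ 2 = a - 2) (hC : MC D a) :
    Finite (Pool.Agent.H437R2.Man.MW.Pt (0 : F) (-((D : F) * eA a)) (-((D : F) * eB a))) := by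
  have hD0 : (D : F) ≠ 0 := Nat.cast_ne_zero.2 hC.ne
  obtain ⟨n1, n2, n3⟩ := roots_neD ha hD0
  have key : ∀ {b : F}, MainD D b → ∀ {x y : F}, y ≠ 0 → y ^ 2 = x * (x - rA D b) * (x - rB D b) →
      SDD b (D : F) (x - rB D b) := by
    intro b hb x y hy h
    have hx : x - rB D b ≠ 0 := by
      intro h0
      rw [h0, mul_zero] at h
      exact hy (pow_eq_zero_iff two_ne_zero |>.1 h)
    refine hb _ hx fun P => Or.inl ⟨algebraMap F _ x, algebraMap F _ y, ?_, ?_, ?_⟩
    · rw [Ne, map_eq_zero]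
      exact hy
    · rw [← (map_rAB (algebraMap F (P.adicCompletion F)) D b).1,
        ← (map_rAB (algebraMap F (P.adicCompletion F)) D b).2, ← map_pow, h]
      simp only [map_mul, map_sub]
    · rw [← (map_rAB (algebraMap F (P.adicCompletion F)) D b).2, ← map_sub, ← map_mul]
      exact ⟨algebraMap F _ (x - rB D b), by rw [map_mul]⟩
  refine finite_of_dec (pt_fg n1 n2 n3) (dec_of_classes ha hD0 fun x y hy h => ⟨?_, ?_⟩)
  · exact key hC.mainB hy h
  · have h1 : y ^ 2 = x * (x - rA D (1 - a)) * (x - rB D (1 - a)) := by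
      have e1 : rA D (1 - a) = (D : F) * eB a := by unfold rA; rw [eA_conj]
      have e2 : rB D (1 - a) = (D : F) * eA a := by unfold rB; rw [eB_conj]
      rw [e1, e2, h]
      ring
    have h2 := key hC.mainA hy h1
    have e2 : rB D (1 - a) = (D : F) * eA a := by unfold rB; rw [eB_conj]
    have e : (D : F) * (2 * (1 - a) - 1) = -((D : F) * (2 * a - 1)) := by ring
    unfold SDD at h2
    rwa [e2, e] at h2

/-- the Mordell-Weil group is finite -/
theorem mw_finiteM {a : F} (ha : a ^ 2 = a - 2) (hC : MC D a) :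
    Finite (WX K D).toAffine.Point := by
  have hfin := pt_finiteM ha hC
  have hD0 : (D : F) ≠ 0 := Nat.cast_ne_zero.2 hC.ne
  obtain ⟨n1, n2, n3⟩ := roots_neD ha hD0
  have hm := eA_mul ha
  have hadd := eA_add ha
  have hQ : ∀ Q : {Q : K × K // (WX K D).toAffine.Equation Q.1 Q.2},
      (Pool.Agent.H437R2.Man.MW.crv (0 : F) (-((D : F) * eA a)) (-((D : F) * eB a))).toAffine.Nonsingular
        (algebraMap K F (Q.1.1 - 7 * (D : K))) (algebraMap K F Q.1.2) := by
    rintro ⟨⟨x, y⟩, h⟩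
    apply Pool.Agent.H437R2.Man.MW.crv_nonsing n1 n2 n3
    have h1 : y ^ 2 = (x - 7 * (D : K)) ^ 3 + 21 * (D : K) * (x - 7 * (D : K)) ^ 2 +
        112 * (D : K) ^ 2 * (x - 7 * (D : K)) := by
      rw [WeierstrassCurve.Affine.equation_iff] at h
      unfold WX at h
      simp only at h
      linear_combination h
    have h2 := congrArg (algebraMap K F) h1
    simp only [map_pow, map_add, map_mul, map_ofNat, map_natCast] at h2
    simp only
    rw [h2]
    linear_combination (D : F) * (algebraMap K F (x - 7 * (D : K))) ^ 2 * hadd -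
      (D : F) ^ 2 * (algebraMap K F (x - 7 * (D : K))) * hm
  have hinj : Function.Injective (fun Q : {Q : K × K // (WX K D).toAffine.Equation Q.1 Q.2} =>
      (WeierstrassCurve.Affine.Point.some _ _ (hQ Q) :
        Pool.Agent.H437R2.Man.MW.Pt (0 : F) (-((D : F) * eA a)) (-((D : F) * eB a)))) := by
    rintro ⟨⟨x, y⟩, h⟩ ⟨⟨x', y'⟩, h'⟩ he
    simp only [WeierstrassCurve.Affine.Point.some.injEq] at he
    obtain ⟨e1, e2⟩ := he
    have e3 := (algebraMap K F).injective e1
    have e4 := (algebraMap K F).injective e2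
    have e5 : x = x' := by linear_combination e3
    subst e5
    subst e4
    rfl
  have hf : Finite {Q : K × K // (WX K D).toAffine.Equation Q.1 Q.2} :=
    Finite.of_injective _ hinj
  exact Finite.of_injective _ (Pool.Agent.W189.NF.ptMap_injective (WX K D))

end Pool.Agent.L0h23.ED
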