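import Pool.Agent.L0h23.ED.Slb
import Pool.Agent.L0h23.ED.Shb
import Pool.Agent.R428.Q0.Fh

/-!
# Finiteness of the Mordell-Weil group and triviality of the 2-primary part of the
Tate-Shafarevich group, for `D ≡ 2, 3 mod 4`
-/

set_option autoImplicit false
set_option linter.unusedSectionVars false

attribute [-instance] DivisionRing.toRatAlgebra

namespace Pool.Agent.L0h23.ED

open Pool.Agent.Y698 Pool.Agent.Y698.SG Pool.Agent.L0h23.EV
open Pool.Agent.L0h4.TW (D1 D2 N1 nt pfx sy_mul' Od two_self)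
open Pool.Agent.W192.HK (sp)
open WithZero NumberField IsDedekindDomain

/-! ### arithmetic -/

lemma bz_zero {s : Bool} (h : bz s = 0) : s = false := by
  cases s
  · rfl
  · exact absurd h (by decide)

lemma bz_one {s : Bool} (h : bz s = 1) : s = true := by
  cases s
  · exact absurd h (by decide)
  · rfl

lemma ar_A3 : ∀ (s : Bool) (d c : ZMod 8) (l : ZMod 2), (d = 3 ∨ d = 7) → C5 c l →
    ((if s then -1 else 1) * c = 1 ∨ d * 5 * ((if s then -1 else 1) * c) = 1) →
    l = (if d = 7 then 1 else 0) * bz s := by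
  intro s d c l hd hc
  unfold C5 at hc
  rcases hd with rfl | rfl <;> rcases hc with ⟨rfl, rfl⟩ | ⟨rfl, rfl⟩ <;> revert s <;> decide

lemma ar_B3 : ∀ (z : Bool) (u d : ZMod 8) (n l : ZMod 2), (d = 3 ∨ d = 7) → C8 u n l →
    (z = false → u = 1 ∨ u = 5) → (z = true → 2 * u = 1 + 3 * d) →
    n + (if d = 7 then 1 else 0) * bz z = 0 := by
  intro z u d n l hd hc
  unfold C8 at hc
  rcases hd with rfl | rfl <;>
    rcases hc with ⟨rfl, rfl, rfl⟩ | ⟨rfl, rfl, rfl⟩ | ⟨rfl, rfl, rfl⟩ | ⟨rfl, rfl, rfl⟩ <;>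
    revert z <;> decide

lemma ar_AE : ∀ (s : Bool) (c : ZMod 8) (l : ZMod 2), C5 c l →
    (if s then -1 else 1) * c = 1 → s = false ∧ l = 0 := by
  intro s c l hc
  unfold C5 at hc
  rcases hc with ⟨rfl, rfl⟩ | ⟨rfl, rfl⟩ <;> revert s <;> decide

lemma ar_BE : ∀ (z : Bool) (U d : ZMod 16) (N l : ZMod 2), (d = 2 ∨ d = 6 ∨ d = 10 ∨ d = 14) →
    C8 ((ZMod.castHom (show 8 ∣ 16 by norm_num) (ZMod 8)) U) N l →
    (z = false → (ZMod.castHom (show 8 ∣ 16 by norm_num) (ZMod 8)) U = 1 ∨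
      (ZMod.castHom (show 8 ∣ 16 by norm_num) (ZMod 8)) U =
        1 + 3 * (ZMod.castHom (show 8 ∣ 16 by norm_num) (ZMod 8)) d) →
    (z = true → 10 * U = 11 * d ∨ 10 * U = 4 + 11 * d) →
    (if d = 6 ∨ d = 10 then 1 else 0) * bz z + l + (if d = 6 ∨ d = 14 then 1 else 0) * N = 0 := by
  intro z U d N l hd hc h0 h1
  cases z
  · have h0' := h0 rfl
    clear h0 h1
    revert hc h0'
    rcases hd with rfl | rfl | rfl | rfl <;> revert U N l <;> decide
  · have h1' := h1 rfl
    clear h0 h1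
    revert hc h1'
    rcases hd with rfl | rfl | rfl | rfl <;> revert U N l <;> decide

/-! ### the systems -/

section main
variable {F : Type} [Field F] [NumberField F] {b : F} (E : FE b)
  {Q S : Finset ℕ} {ϖ : ℕ → RR} (h : Pool.Agent.L0h4.TW.Dt Q S ϖ) (hR : S_R2)

lemma sum_ind {T I : Finset (ℕ × Bool)} (hT : T ⊆ I) (f : ℕ × Bool → ZMod 2) :
    ∑ i ∈ I, f i * (if i ∈ T then 1 else 0) = ∑ i ∈ T, f i := by
  classical
  have e1 : T = I.filter (fun i => i ∈ T) := by
    ext i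
    rw [Finset.mem_filter]
    exact ⟨fun h => ⟨hT h, h⟩, fun h => h.2⟩
  conv_rhs => rw [e1, Finset.sum_filter]
  refine Finset.sum_congr rfl fun i _ => ?_
  split_ifs <;> simp

lemma nat8 {D r : ℕ} (h : D % 8 = r) : (D : ZMod 8) = (r : ZMod 8) := by
  rw [← h, ZMod.natCast_mod]

lemma nat16 {D r : ℕ} (h : D % 16 = r) : (D : ZMod 16) = (r : ZMod 16) := by
  rw [← h, ZMod.natCast_mod]

include E h in
lemma M_ne : ∏ p ∈ Q ∪ S, p ≠ 0 := by
  rw [Finset.prod_ne_zero_iff]
  exact fun p hp => (h.od p hp).pr.ne_zero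

include E h hR in
/-- the descent for `D ≡ 3 mod 4` -/
theorem mainD3 (h4 : (∏ p ∈ Q ∪ S, p) % 4 = 3) (hns : NS3 Q S ϖ (∏ p ∈ Q ∪ S, p)) :
    MainD (∏ p ∈ Q ∪ S, p) (1 - b) := by
  classical
  obtain ⟨D, hDd⟩ : ∃ D, D = ∏ p ∈ Q ∪ S, p := ⟨_, rfl⟩
  have hM0 := M_ne E h
  rw [← hDd] at h4 hns hM0 ⊢
  intro q hq hf
  have hf' : FH b D q := hf
  have hDM : D = ∏ p ∈ Q ∪ S, p ∨ D = 2 * ∏ p ∈ Q ∪ S, p := Or.inl hDd
  have hκ : (D : RR) = -1 * ∏ i ∈ ix Q S, pfx Q ϖ i := by
    rcases prod_sgn' h with ⟨h1, -⟩ | ⟨-, h1⟩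
    · rw [hDd] at h4
      omega
    · rw [hDd]
      exact h1
  obtain ⟨s, e, y, z, T, hT, hqT⟩ := glob E h hDM hq hf'
  -- the exponent of `aR`
  obtain ⟨P, hP⟩ := E.pl prime_aR
  rw [ev_aR] at hP
  have h2 := E.two hP
  have hev : Ev (P.valuation F) q := by
    have hch := charC P
    have A := at2P E.hb E.hF P h2 hP (D := D) (Or.inl h4)
    have hf1 := hf' P
    rw [map_sub, map_one] at hf1
    have hq' : algebraMap F (P.adicCompletion F) q ≠ 0 := by
      rw [Ne, map_eq_zero]; exact hq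
    refine Ev.down P ?_
    rcases loc_a A hf1 with ⟨t, ht⟩ | ⟨t, ht⟩
    · refine ⟨t, ?_, by rw [ht, map_mul, pow_two]⟩
      rintro rfl
      exact hq' (by rw [ht, mul_zero])
    · have hδ : (Valued.v : Valuation (P.adicCompletion F) ℤᵐ⁰) ((D : P.adicCompletion F) *
          (2 * (1 - algebraMap F (P.adicCompletion F) b) - 1)) = 1 := by
        have e1 : (D : P.adicCompletion F) *
          (2 * (1 - algebraMap F (P.adicCompletion F) b) - 1) =
            algebraMap F _ ((D : F) * ev b E.hb (-fR)) := by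
          unfold fR
          rw [map_mul, map_natCast]
          congr 1
          simp only [map_neg, map_sub, map_mul, map_ofNat, map_one, ev_aR]
          ring
        rw [e1, valued_algebraMap, map_mul]
        have hva : P.valuation F (ev b E.hb aR) = exp (-1) := by
          rw [ev_aR]
          exact (val_b E.hb h2 hP).1
        rw [unit_val E.hb prime_aR hva (odd_a (by
          rw [nR_neg, nR_fR]; norm_num)), mul_one]
        exact v_oddn h2 (by omega)
      refine ⟨t, ?_, ?_⟩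
      · rintro rfl
        rw [mul_zero] at ht
        rcases mul_eq_zero.1 ht with h5 | h5
        · rw [h5, map_zero] at hδ
          exact zero_ne_one hδ
        · exact hq' h5
      · have h5 := congrArg (Valued.v : Valuation (P.adicCompletion F) ℤᵐ⁰) ht
        rw [map_mul, hδ, one_mul, map_mul] at h5
        rw [h5, pow_two]
  have hy := y_false E h hP hev hT hqT
  subst hy
  have hd : (D : ZMod 8) = 3 ∨ (D : ZMod 8) = 7 := by
    have : D % 8 = 3 ∨ D % 8 = 7 := by omega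
    rcases this with h5 | h5
    · left; rw [nat8 h5]; rfl
    · right; rw [nat8 h5]; rfl
  have hL : (if (D : ZMod 8) = 7 then (1 : ZMod 2) else 0) = if D % 8 = 7 then 1 else 0 := by
    have : D % 8 = 3 ∨ D % 8 = 7 := by omega
    rcases this with h5 | h5
    · rw [nat8 h5, h5]; decide
    · rw [nat8 h5, h5]; decide
  obtain ⟨c, hc, hA⟩ := eqA E h (Or.inl h4) hf' hT hqT
  have hA' : (if s then -1 else 1) * c = 1 ∨ (D : ZMod 8) * 5 * ((if s then -1 else 1) * c) = 1 := by
    rcases hA with h5 | h5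
    · exact Or.inl h5
    · exact Or.inr h5.2
  have eA := ar_A3 s _ c _ hd hc hA'
  obtain ⟨U, hU, hB, -⟩ := eqB E h hR (Or.inl h4) hf' hT hqT
  obtain ⟨hB1, hB2⟩ := hB h4
  have eB := ar_B3 z _ _ _ _ hd hU hB1 hB2
  rw [hL] at eA eB
  have eJ := fun j (hj : j ∈ ix Q S) => eqJ E h hR hDM hq hf' hκ hT hqT hj (neg_notin' h hj)
  have key := hns (bz s) (bz z) (bz e) (fun i => if i ∈ T then 1 else 0) ?_ ?_ ?_
  · unfold SDD
    have hδ : ev b E.hb ((D : RR) * (-fR)) = (D : F) * (2 * (1 - b) - 1) := by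
      unfold fR
      simp only [map_neg, map_sub, map_mul, map_ofNat, map_one, ev_aR, map_natCast]
      ring
    rcases key with ⟨k1, k2, k3, k4⟩ | ⟨k1, k2, k3, k4⟩
    · left
      have hs := bz_zero k1
      have hz := bz_zero k2
      have he := bz_zero k3
      have hT0 : T = ∅ := by
        by_contra hne
        obtain ⟨i, hi⟩ := Finset.nonempty_iff_ne_empty.2 hne
        have := k4 i (hT hi)
        rw [if_pos hi] at this
        exact one_ne_zero this
      subst hs hz he hT0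
      have e1 : cc false false false false * ∏ i ∈ (∅ : Finset (ℕ × Bool)), pfx Q ϖ i = 1 := by
        unfold cc
        simp
      rw [e1, map_one] at hqT
      exact hqT
    · right
      have hs := bz_one k1
      have hz := bz_zero k2
      have he := bz_one k3
      have hT0 : T = ix Q S := by
        refine Finset.Subset.antisymm hT fun i hi => ?_
        by_contra hni
        have := k4 i hi
        rw [if_neg hni] at this
        exact zero_ne_one this
      subst hs hz he hT0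
      have e1 : cc true true false false * ∏ i ∈ ix Q S, pfx Q ϖ i = (D : RR) * (-fR) := by
        rw [hκ]
        unfold cc
        simp only [if_true, Bool.false_eq_true, if_false]
        ring
      rw [e1, hδ] at hqT
      exact hqT
  · rw [sum_ind hT]
    linear_combination eA
  · rw [sum_ind hT]
    linear_combination eB
  · intro j hj
    have := eJ j hj
    have e1 : lg (sy (pfx Q ϖ j) (-1)) = kn (pfx Q ϖ) j := rfl
    rw [e1] at this
    exact this

/-- multiplication by the class of the point of order two -/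
lemma FourD.delta {L : Type} [Field L] [CharZero L] {a : L} (ha : a ^ 2 = a - 2) {D : ℕ}
    (hD : D ≠ 0) {q : L} (h : FourD D a q) : FourD D a ((D : L) * (2 * a - 1) * q) := by
  have hs0 : 2 * a - 1 ≠ 0 := s_ne ha
  have hD0 : (D : L) ≠ 0 := by exact_mod_cast hD
  have ha0 : a ≠ 0 := by
    rintro rfl
    norm_num at ha
  have e : -rB D a = (D : L) * (2 * a - 1) * a ^ 4 := by unfold rB eB; ring
  rcases h with ⟨x, y, hy, hxy, ⟨c, hc⟩⟩ | ⟨c, hc⟩ | ⟨c, hc⟩ | ⟨c, hc⟩
  · left
    have hx0 : x ≠ 0 := by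
      rintro rfl
      apply hy
      have : y ^ 2 = 0 := by rw [hxy]; ring
      exact pow_eq_zero_iff two_ne_zero |>.1 this
    have hn : x - rB D a ≠ 0 := by
      intro h0
      rw [h0, mul_zero] at hxy
      exact hy (pow_eq_zero_iff two_ne_zero |>.1 hxy)
    obtain ⟨-, n1, n2, -⟩ := rAB_ne hD ha
    set A := rA D a
    set B := rB D a
    refine ⟨A * B / x, A * B * y / x ^ 2, ?_, ?_, ?_⟩
    · exact div_ne_zero (mul_ne_zero (mul_ne_zero n1.symm n2.symm) hy) (pow_ne_zero 2 hx0)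
    · field_simp
      linear_combination hxy
    · refine ⟨(D : L) * (2 * a - 1) * a ^ 2 * (y * c) / (x * (x - B)), ?_⟩
      have h1 : (A * B / x - B) = (D : L) * (2 * a - 1) * a ^ 4 * (x - A) / x := by
        rw [← e]
        field_simp
        ring
      rw [h1]
      field_simp
      linear_combination (-(q * (x - B))) * hxy + y ^ 2 * hc
  · right; right; left
    refine ⟨(D : L) * (2 * a - 1) * a ^ 2 * c, ?_⟩
    rw [e, hc]
    ring
  · right; left
    rw [e] at hc
    refine ⟨c / a ^ 2, ?_⟩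
    field_simp
    linear_combination hc
  · right; left
    rw [rA_sub ha] at hc
    exact ⟨c, hc⟩

lemma ev_even {w : Valuation F ℤᵐ⁰} (h2 : w 2 = exp (-1)) {x : F} {m : ℤ} (hx : w x = exp (2 * m)) :
    Ev w x := by
  have h20 : (2 : F) ≠ 0 := two_ne_zero
  refine ⟨2 ^ (-m), zpow_ne_zero _ h20, ?_⟩
  rw [map_zpow₀, h2, hx, ← exp_zsmul, ← exp_nsmul]
  congr 1
  simp

include E h hR in
/-- the descent for `D ≡ 2 mod 4`, the classes with even valuation -/
theorem coreE (hns : NSE Q S ϖ (∏ p ∈ Q ∪ S, p)) {P : HeightOneSpectrum (𝓞 F)}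
    (hP : P.valuation F b < 1) {q : F} (hq : q ≠ 0) (hf : FH b (2 * ∏ p ∈ Q ∪ S, p) q)
    (hev : Ev (P.valuation F) q) : SqE q 1 := by
  classical
  obtain ⟨M, hMd⟩ : ∃ M, M = ∏ p ∈ Q ∪ S, p := ⟨_, rfl⟩
  have hDM : 2 * M = ∏ p ∈ Q ∪ S, p ∨ 2 * M = 2 * ∏ p ∈ Q ∪ S, p := Or.inr (by rw [hMd])
  have hsg := prod_sgn' h
  rw [← hMd] at hns hf hsg
  have hM4 : M % 4 = 1 ∨ M % 4 = 3 := by
    rcases hsg with h1 | h1
    · exact Or.inl h1.1
    · exact Or.inr h1.1
  have h4 : (2 * M) % 4 = 2 := by omega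
  obtain ⟨κ, hκd⟩ : ∃ κ : RR, κ = 2 * (if M % 4 = 3 then -1 else 1) := ⟨_, rfl⟩
  have hκ : ((2 * M : ℕ) : RR) = κ * ∏ i ∈ ix Q S, pfx Q ϖ i := by
    push_cast
    rcases hsg with ⟨h1, h2⟩ | ⟨h1, h2⟩
    · rw [hκd, if_neg (by omega), h2]
      ring
    · rw [hκd, if_pos h1, h2]
      ring
  obtain ⟨s, e, y, z, T, hT, hqT⟩ := glob E h hDM hq hf
  have hy := y_false E h hP hev hT hqT
  subst hy
  obtain ⟨c, hc, hA⟩ := eqA E h (Or.inr h4) hf hT hqT
  have hA' : (if s then -1 else 1) * c = 1 := by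
    rcases hA with h5 | h5
    · exact h5
    · exfalso
      have := h5.1
      omega
  obtain ⟨hs, eA⟩ := ar_AE s c _ hc hA'
  subst hs
  obtain ⟨U, hU, -, hB⟩ := eqB E h hR (Or.inr h4) hf hT hqT
  obtain ⟨hB1, hB2⟩ := hB h4
  rw [← s16_s8] at hU hB1
  have hM8 : M % 8 = 1 ∨ M % 8 = 3 ∨ M % 8 = 5 ∨ M % 8 = 7 := by omega
  have hd : ((2 * M : ℕ) : ZMod 16) = 2 ∨ ((2 * M : ℕ) : ZMod 16) = 6 ∨
      ((2 * M : ℕ) : ZMod 16) = 10 ∨ ((2 * M : ℕ) : ZMod 16) = 14 := by
    rcases hM8 with h5 | h5 | h5 | h5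
    · left; rw [nat16 (show (2 * M) % 16 = 2 by omega)]; rfl
    · right; left; rw [nat16 (show (2 * M) % 16 = 6 by omega)]; rfl
    · right; right; left; rw [nat16 (show (2 * M) % 16 = 10 by omega)]; rfl
    · right; right; right; rw [nat16 (show (2 * M) % 16 = 14 by omega)]; rfl
  have eB := ar_BE z (s16 U) ((2 * M : ℕ) : ZMod 16) _ _ hd hU
    (by rw [map_natCast]; exact hB1) hB2
  have hw : (if ((2 * M : ℕ) : ZMod 16) = 6 ∨ ((2 * M : ℕ) : ZMod 16) = 10 then (1 : ZMod 2) else 0) =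
      if M % 8 = 3 ∨ M % 8 = 5 then 1 else 0 := by
    rcases hM8 with h5 | h5 | h5 | h5
    · rw [nat16 (show (2 * M) % 16 = 2 by omega), h5]; decide
    · rw [nat16 (show (2 * M) % 16 = 6 by omega), h5]; decide
    · rw [nat16 (show (2 * M) % 16 = 10 by omega), h5]; decide
    · rw [nat16 (show (2 * M) % 16 = 14 by omega), h5]; decide
  have hn : (if ((2 * M : ℕ) : ZMod 16) = 6 ∨ ((2 * M : ℕ) : ZMod 16) = 14 then (1 : ZMod 2) else 0) =
      if M % 4 = 3 then 1 else 0 := by
    rcases hM8 with h5 | h5 | h5 | h5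
    · rw [nat16 (show (2 * M) % 16 = 2 by omega), show M % 4 = 1 by omega]; decide
    · rw [nat16 (show (2 * M) % 16 = 6 by omega), show M % 4 = 3 by omega]; decide
    · rw [nat16 (show (2 * M) % 16 = 10 by omega), show M % 4 = 1 by omega]; decide
    · rw [nat16 (show (2 * M) % 16 = 14 by omega), show M % 4 = 3 by omega]; decide
  rw [hw, hn] at eB
  have hκj : ∀ j ∈ ix Q S, κ ∉ sp (pfx Q ϖ j) ∧ lg (sy (pfx Q ϖ j) κ) =
      kl (pfx Q ϖ) j + kb (pfx Q ϖ) j + (if M % 4 = 3 then 1 else 0) * kn (pfx Q ϖ) j := by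
    intro j hj
    have hp := pr_i h hj
    have n1 := two_notin' h hj
    have h2 := hR.sy_two _ _ (d12 h hj)
    rw [hκd]
    split_ifs with h6
    · refine ⟨mul_notin hp n1 (neg_notin' h hj), ?_⟩
      rw [lgm hp n1 (neg_notin' h hj), h2, one_mul]
      rfl
    · rw [mul_one]
      refine ⟨n1, ?_⟩
      rw [h2, zero_mul, add_zero]
      rfl
  have b0 : bz false = 0 := rfl
  have eJ := fun j (hj : j ∈ ix Q S) => eqJ E h hR hDM hq hf hκ hT hqT hj (hκj j hj).1
  have key := hns (bz z) (bz e) (fun i => if i ∈ T then 1 else 0) ?_ ?_ ?_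
  · obtain ⟨k2, k3, k4⟩ := key
    have hz := bz_zero k2
    have he := bz_zero k3
    have hT0 : T = ∅ := by
      by_contra hne
      obtain ⟨i, hi⟩ := Finset.nonempty_iff_ne_empty.2 hne
      have := k4 i (hT hi)
      rw [if_pos hi] at this
      exact one_ne_zero this
    subst hz he hT0
    have e1 : cc false false false false * ∏ i ∈ (∅ : Finset (ℕ × Bool)), pfx Q ϖ i = 1 := by
      unfold cc
      simp
    rw [e1, map_one] at hqT
    exact hqT
  · rw [sum_ind hT]
    linear_combination eA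
  · rw [sum_ind hT (fun i => kb (pfx Q ϖ) i + (if M % 4 = 3 then 1 else 0) * kn (pfx Q ϖ) i),
      Finset.sum_add_distrib, ← Finset.mul_sum]
    rw [b0] at eB
    linear_combination eB
  · intro j hj
    have h6 := eJ j hj
    rw [(hκj j hj).2, b0] at h6
    linear_combination h6

include E h hR in
/-- the descent for `D ≡ 2 mod 4` -/
theorem mainDE (hns : NSE Q S ϖ (∏ p ∈ Q ∪ S, p)) : MainD (2 * ∏ p ∈ Q ∪ S, p) (1 - b) := by
  have hM0 := M_ne E h
  have hsg := prod_sgn' h
  obtain ⟨D, hDd⟩ : ∃ D, D = 2 * ∏ p ∈ Q ∪ S, p := ⟨_, rfl⟩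
  rw [← hDd]
  have hD0 : D ≠ 0 := by omega
  have hD4 : D % 4 = 2 := by
    rcases hsg with ⟨h1, -⟩ | ⟨h1, -⟩ <;> omega
  have hD0' : (D : F) ≠ 0 := by exact_mod_cast hD0
  intro q hq hf
  obtain ⟨P, hP⟩ := E.pl prime_aR
  rw [ev_aR] at hP
  have h2 := E.two hP
  have hva : P.valuation F (ev b E.hb aR) = exp (-1) := by
    rw [ev_aR]
    exact (val_b E.hb h2 hP).1
  set δ : F := (D : F) * (2 * (1 - b) - 1) with hδd
  have hs : ev b E.hb (-fR) = 2 * (1 - b) - 1 := by
    unfold fR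
    rw [map_neg, map_sub, map_mul, map_ofNat, ev_aR, map_one]
    ring
  have hδ : P.valuation F δ = exp (-1) := by
    rw [hδd, ← hs, map_mul, unit_val E.hb prime_aR hva (odd_a (by rw [nR_neg, nR_fR]; norm_num)),
      mul_one]
    obtain ⟨e, rfl⟩ : ∃ e, D = 2 * (1 + 2 * e) := ⟨D / 4, by omega⟩
    have h9 : P.valuation F ((1 + 2 * e : ℕ) : F) = 1 := v_oddn h2 (by omega)
    rw [Nat.cast_mul, map_mul, h9, mul_one]
    exact_mod_cast h2
  have hδ0 : δ ≠ 0 := by
    intro h0
    rw [h0, map_zero] at hδ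
    exact exp_ne_zero hδ.symm
  have hf1 : FH b (2 * ∏ p ∈ Q ∪ S, p) q := by
    rw [← hDd]
    exact hf
  obtain ⟨m, hm⟩ := vexp (w := P.valuation F) hq
  unfold SDD
  rcases Int.even_or_odd' m with ⟨k, hk | hk⟩
  · left
    exact coreE E h hR hns hP hq hf1 (ev_even h2 (by rw [hm, hk]))
  · right
    have hq' : δ * q ≠ 0 := mul_ne_zero hδ0 hq
    have hev : Ev (P.valuation F) (δ * q) := by
      refine ev_even h2 (m := k) ?_
      rw [map_mul, hδ, hm, hk, ← exp_add]
      congr 1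
      ring
    have hf2 : FH b (2 * ∏ p ∈ Q ∪ S, p) (δ * q) := by
      rw [← hDd]
      intro P'
      have hch := charC P'
      have haE : (algebraMap F (P'.adicCompletion F) (1 - b)) ^ 2 =
          algebraMap F (P'.adicCompletion F) (1 - b) - 2 := by
        rw [← map_pow, ha_conj E.hb, map_sub, map_ofNat]
      have h5 := FourD.delta haE hD0 (hf P')
      have e1 : (D : P'.adicCompletion F) * (2 * algebraMap F (P'.adicCompletion F) (1 - b) - 1) *
          algebraMap F (P'.adicCompletion F) q = algebraMap F _ (δ * q) := by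
        rw [hδd, map_mul (algebraMap F (P'.adicCompletion F)) ((D : F) * (2 * (1 - b) - 1)),
          map_mul (algebraMap F (P'.adicCompletion F)) (D : F),
          map_sub (algebraMap F (P'.adicCompletion F)) (2 * (1 - b)),
          map_mul (algebraMap F (P'.adicCompletion F)) 2, map_natCast, map_ofNat, map_one]
      rw [e1] at h5
      exact h5
    obtain ⟨z, hz, h6⟩ := coreE E h hR hns hP hq' hf2 hev
    refine ⟨z / δ, div_ne_zero hz hδ0, ?_⟩
    show q = δ * (z / δ) ^ 2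
    clear_value δ
    field_simp
    linear_combination h6

end main


end Pool.Agent.L0h23.ED
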