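import Pool.Agent.L0h23.EV.TamB
import Pool.Agent.Y698.Trd

/-!
# The local conditions at the places above two
-/

set_option autoImplicit false
set_option linter.unusedSectionVars false

namespace Pool.Agent.L0h23.ED

open Pool.Agent.Y698 Pool.Agent.L0h23.EV WithZero

section
variable {L : Type} [Field L] [CharZero L] {v : Valuation L ℤᵐ⁰} {D : ℕ} {a : L}

lemma rA_eq (ha : a ^ 2 = a - 2) : rA D a = ra (D : L) a := by
  unfold rA eA ra
  rw [b_four ha]
  linear_combination 6 * (D : L) * ha

lemma rB_eq (ha : a ^ 2 = a - 2) : rB D a = rb (D : L) a := by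
  unfold rB eB rb
  rw [a_four ha]
  linear_combination 6 * (D : L) * ha

lemma eeq_of (ha : a ^ 2 = a - 2) {x y : L}
    (h : y ^ 2 = x * (x - ra (D : L) a) * (x - rb (D : L) a)) : Eeq' (D : L) x y := by
  unfold Eeq'
  have h1 := ra_mul (δ := (D : L)) ha
  have h2 := ra_add (D : L) a
  linear_combination h - x ^ 2 * h2 + x * h1

variable (A : At2 v (D : L) a)
include A

lemma At2.b0 : 1 - a ≠ 0 := by
  intro h0
  have h1 : a = 1 := by linear_combination -h0
  have := A.va
  rw [h1, map_one] at this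
  exact lt_irrefl _ this

lemma At2.a0 : a ≠ 0 := by
  rintro rfl
  have := A.ha
  norm_num at this

/-- the condition at the place where `a` is not a unit, for the other root -/
theorem loc_a {q : L} (h : FourD D (1 - a) q) :
    IsSquare q ∨ IsSquare ((D : L) * (2 * (1 - a) - 1) * q) := by
  have ha := A.ha
  have hb0 := At2.b0 A
  have hra0 := A.ra0
  have e1 : rA D (1 - a) = rb (D : L) a := by rw [rA_conj, rB_eq ha]
  have e2 : rB D (1 - a) = ra (D : L) a := by rw [rB_conj, rA_eq ha]
  -- the class of `-ra`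
  have key : ∀ t : L, IsSquare (-ra (D : L) a * t) → IsSquare ((D : L) * (2 * (1 - a) - 1) * t) := by
    rintro t ⟨c, hc⟩
    refine ⟨c / (1 - a) ^ 2, ?_⟩
    have h3 : ra (D : L) a = (D : L) * ((2 * a - 1) * (1 - a) ^ 4) := by
      rw [← rA_eq ha]
      rfl
    rw [h3] at hc
    field_simp
    linear_combination hc
  unfold FourD at h
  rw [e1, e2] at h
  rcases h with ⟨x, y, hy, hxy, hsq⟩ | h | h | h
  · have hx0 : x ≠ 0 := by
      rintro rfl
      apply hy
      have : y ^ 2 = 0 := by rw [hxy]; ring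
      exact pow_eq_zero_iff two_ne_zero |>.1 this
    have hE : Eeq' (D : L) x y := eeq_of ha (by rw [hxy]; ring)
    have hn : x - ra (D : L) a ≠ 0 := by
      intro h0
      rw [h0, mul_zero] at hxy
      exact hy (pow_eq_zero_iff two_ne_zero |>.1 hxy)
    obtain ⟨m, hm⟩ : ∃ m : ℤ, v x = exp m := ⟨_, (exp_log ((v.ne_zero_iff).2 hx0)).symm⟩
    have hcase : IsSquare (x - ra (D : L) a) ∨ ∃ z : L, z ≠ 0 ∧ x - ra (D : L) a =
        -ra (D : L) a * (z * z) := by
      rcases A.pt hE hm with ⟨-, -, h1, -⟩ | ⟨-, h1, -⟩ | ⟨-, h1⟩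
      · exact Or.inl h1
      · exact Or.inl h1
      · exact Or.inr h1
    obtain ⟨c, hc⟩ := hsq
    rcases hcase with ⟨z, hz⟩ | ⟨z, hz0, hz⟩
    · left
      have hz0 : z ≠ 0 := by
        rintro rfl
        rw [mul_zero] at hz
        exact hn hz
      refine ⟨c / z, ?_⟩
      rw [hz] at hc
      field_simp
      linear_combination hc
    · right
      apply key
      refine ⟨c / z, ?_⟩
      rw [hz] at hc
      field_simp
      linear_combination hc
  · exact Or.inl h
  · exact Or.inr (key _ h)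
  · right
    have e : rb (D : L) a - ra (D : L) a = (D : L) * (2 * (1 - a) - 1) := by
      have := ra_sub (D : L) a
      linear_combination -this
    rwa [e] at h

/-- the condition at the place where `a` is not a unit -/
theorem loc_b {q : L} (h : FourD D a q) : ∃ u w : L, q = u ^ 2 + ra (D : L) a * w ^ 2 := by
  have ha := A.ha
  have hb0 := At2.b0 A
  have ha0 := At2.a0 A
  have hra0 := A.ra0
  have hD0 := A.dne
  have h3 : ra (D : L) a = (D : L) * ((2 * a - 1) * (1 - a) ^ 4) := by
    rw [← rA_eq ha]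
    rfl
  have h4 : rb (D : L) a = -((D : L) * ((2 * a - 1) * a ^ 4)) := by
    rw [← rB_eq ha]
    unfold rB eB
    ring
  have hs0 : 2 * a - 1 ≠ 0 := by
    intro h0
    rw [h0, zero_mul, mul_zero] at h3
    exact hra0 h3
  unfold FourD at h
  rw [rA_eq ha, rB_eq ha] at h
  rcases h with ⟨x, y, hy, hxy, hsq⟩ | ⟨c, hc⟩ | ⟨c, hc⟩ | ⟨c, hc⟩
  · have hx0 : x ≠ 0 := by
      rintro rfl
      apply hy
      have : y ^ 2 = 0 := by rw [hxy]; ring
      exact pow_eq_zero_iff two_ne_zero |>.1 this
    have hE : Eeq' (D : L) x y := eeq_of ha hxy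
    have hn : x - rb (D : L) a ≠ 0 := by
      intro h0
      rw [h0, mul_zero] at hxy
      exact hy (pow_eq_zero_iff two_ne_zero |>.1 hxy)
    have hn' : x - ra (D : L) a ≠ 0 := by
      intro h0
      rw [h0, mul_zero, zero_mul] at hxy
      exact hy (pow_eq_zero_iff two_ne_zero |>.1 hxy)
    obtain ⟨m, hm⟩ : ∃ m : ℤ, v x = exp m := ⟨_, (exp_log ((v.ne_zero_iff).2 hx0)).symm⟩
    have hcase : IsSquare (x - ra (D : L) a) ∨ ∃ z : L, z ≠ 0 ∧ x - ra (D : L) a =
        -ra (D : L) a * (z * z) := by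
      rcases A.pt hE hm with ⟨-, -, h1, -⟩ | ⟨-, h1, -⟩ | ⟨-, h1⟩
      · exact Or.inl h1
      · exact Or.inl h1
      · exact Or.inr h1
    obtain ⟨c, hc⟩ := hsq
    -- it suffices to consider `x - rb`
    suffices hsuf : ∃ u w : L, x - rb (D : L) a = u ^ 2 + ra (D : L) a * w ^ 2 by
      obtain ⟨u, w, huw⟩ := hsuf
      set n := x - rb (D : L) a with hnd
      refine ⟨u * (c / n), w * (c / n), ?_⟩
      have e : u ^ 2 + ra (D : L) a * w ^ 2 - n = 0 := by rw [huw]; ring
      have e2 : q = n * (c / n) ^ 2 := by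
        field_simp
        linear_combination hc
      rw [e2]
      linear_combination -(c / n) ^ 2 * e
    rcases hcase with ⟨z, hz⟩ | ⟨z, hz0, hz⟩
    · have hz0 : z ≠ 0 := by
        rintro rfl
        rw [mul_zero] at hz
        exact hn' hz
      refine ⟨z * z * (y / (x * (x - ra (D : L) a))), z * (y / (x * (x - ra (D : L) a))), ?_⟩
      have e : x - rb (D : L) a = x * (x - ra (D : L) a) * (y / (x * (x - ra (D : L) a))) ^ 2 := by
        field_simp
        linear_combination -hxy
      have hx2 : x = z * z + ra (D : L) a := by linear_combination hz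
      have e3 : x * (x - ra (D : L) a) = (z * z) ^ 2 + ra (D : L) a * z ^ 2 := by
        rw [hz]
        rw [hx2]
        ring
      rw [e]
      linear_combination (y / (x * (x - ra (D : L) a))) ^ 2 * e3
    · -- the translate by the point of order two
      obtain ⟨k, hk⟩ : ∃ k : L, k = a ^ 2 / (1 - a) ^ 2 := ⟨_, rfl⟩
      have hk0 : k ≠ 0 := by
        rw [hk]
        exact div_ne_zero (pow_ne_zero 2 ha0) (pow_ne_zero 2 hb0)
      have hrb : rb (D : L) a = -(ra (D : L) a * k ^ 2) := by
        rw [h3, h4, hk]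
        field_simp
      obtain ⟨w, hw⟩ : ∃ w : L, w = y / (z * x) := ⟨_, rfl⟩
      obtain ⟨g, hg⟩ : ∃ g : L, g = y / (ra (D : L) a ^ 2 * k * z) := ⟨_, rfl⟩
      refine ⟨ra (D : L) a * g, w * g, ?_⟩
      set r := ra (D : L) a with hr
      -- `w² + r = r rb / x`
      have f1 : y ^ 2 = -(r * (z * z)) * (x * (x - rb (D : L) a)) := by
        rw [hxy, hz]
        ring
      have f2 : w ^ 2 = -(r * (x - rb (D : L) a) / x) := by
        rw [hw, div_pow, f1]
        field_simp
      have f3 : g ^ 2 = -(x * (x - rb (D : L) a)) / (r ^ 3 * k ^ 2) := by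
        rw [hg, div_pow, f1]
        field_simp
      have e : (r * g) ^ 2 + r * (w * g) ^ 2 = r * (r + w ^ 2) * g ^ 2 := by ring
      rw [e, f2, f3, hrb]
      field_simp
      ring
  · exact ⟨c, 0, by rw [hc]; ring⟩
  · refine ⟨0, c * (1 - a) ^ 2 / (a ^ 2 * ra (D : L) a), ?_⟩
    rw [h4] at hc
    rw [h3]
    have hm := mul_ne_zero hD0 (mul_ne_zero hs0 (pow_ne_zero 4 hb0))
    field_simp
    linear_combination hc
  · refine ⟨0, c / ((D : L) * (2 * a - 1) * (1 - a) ^ 2), ?_⟩
    rw [ra_sub] at hc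
    rw [h3]
    field_simp
    linear_combination hc

end

end Pool.Agent.L0h23.ED
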