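import Pool.Agent.L0h23.ED.Pla

/-!
# The congruences at the places above two
-/

set_option autoImplicit false
set_option linter.unusedSectionVars false

attribute [-instance] DivisionRing.toRatAlgebra

namespace Pool.Agent.L0h23.ED

open Pool.Agent.Y698 Pool.Agent.Y698.SG Pool.Agent.L0h4.TW Pool.Agent.L0h23.EV
open WithZero NumberField IsDedekindDomain

section gen
variable {F : Type*} [Field F] [CharZero F] {b : F} (hb : b ^ 2 = b - 2)

/-- small values -/
lemma dvd_of_val {w : Valuation F ℤᵐ⁰} {π : RR} (hπ : Prime π) (hw : w (ev b hb π) = exp (-1))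
    {x : RR} {k : ℕ} (h : w (ev b hb x) ≤ exp (-(k : ℤ))) : π ^ k ∣ x := by
  by_cases hx : x = 0
  · rw [hx]; exact dvd_zero _
  have hlt : w (ev b hb π) < 1 := by rw [hw, ← exp_zero, exp_lt_exp]; norm_num
  obtain ⟨m, g', hg', hgm⟩ : ∃ (m : ℕ) (g' : RR), ¬ π ∣ g' ∧ x = π ^ m * g' := by
    obtain ⟨g', h1, h2⟩ := (FiniteMultiplicity.of_prime_left hπ hx).exists_eq_pow_mul_and_not_dvd
    exact ⟨_, g', h2, h1⟩
  have u1 : w (ev b hb g') = 1 :=
    le_antisymm (w_ev hb w g') (not_lt.1 fun h1 => hg' ((undr_eq hb hπ hlt g').1 h1))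
  rw [hgm, map_mul, map_mul, u1, mul_one, map_pow, map_pow, hw, ← exp_nsmul, exp_le_exp] at h
  have hk : k ≤ m := by
    simp only [nsmul_eq_mul] at h
    omega
  rw [hgm]
  exact (pow_dvd_pow π hk).mul_right _

lemma unit_val {w : Valuation F ℤᵐ⁰} {π : RR} (hπ : Prime π) (hw : w (ev b hb π) = exp (-1))
    {x : RR} (hx : ¬ π ∣ x) : w (ev b hb x) = 1 := by
  have hlt : w (ev b hb π) < 1 := by rw [hw, ← exp_zero, exp_lt_exp]; norm_num
  exact le_antisymm (w_ev hb w x) (not_lt.1 fun h1 => hx ((undr_eq hb hπ hlt x).1 h1))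

include hb in
lemma val_b {w : Valuation F ℤᵐ⁰} (h2 : w 2 = exp (-1)) (hw : w b < 1) :
    w b = exp (-1) ∧ w (1 - b) = 1 := by
  have h1 : w (1 - b) = 1 := by
    rw [Valuation.map_sub_eq_of_lt_left w, map_one]
    rw [map_one]
    exact hw
  have := congrArg w (ab_eq hb)
  rw [map_mul, h1, mul_one, h2] at this
  exact ⟨this, h1⟩

end gen

section place
variable {F : Type} [Field F] [NumberField F] {b : F} (hb : b ^ 2 = b - 2)
  (hF : ∀ x : F, ∃ u v : ℚ, x = u + v * b) (P : HeightOneSpectrum (𝓞 F))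
  (h2 : P.valuation F 2 = exp (-1)) {D : ℕ} {q : F} {g : RR}

include hF

/-- a square at the place where `b` is not a unit -/
lemma sq_r8 (h2 : P.valuation F 2 = exp (-1)) (hP : P.valuation F b < 1) (hg : ¬ aR ∣ g)
    (h : IsSquare (algebraMap F (P.adicCompletion F) (ev b hb g))) : r8 g = 1 := by
  have A := at2P hb hF P h2 hP (D := 3) (Or.inl (by norm_num))
  obtain ⟨hvb, hvb1⟩ := val_b hb h2 hP
  have hva : P.valuation F (ev b hb aR) = exp (-1) := by rw [ev_aR]; exact hvb
  obtain ⟨t, ht⟩ := h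
  set v : Valuation (P.adicCompletion F) ℤᵐ⁰ := Valued.v with hv
  have h1 : v (algebraMap F (P.adicCompletion F) (ev b hb g)) = 1 := by
    rw [hv, valued_algebraMap]
    exact unit_val hb prime_aR hva hg
  have h3 : v t = 1 := by
    rw [ht, map_mul, ← pow_two] at h1
    exact (pow_eq_one_iff_of_nonneg zero_le two_ne_zero).1 h1
  have h4 := sq8 A.h2 A.hres h3
  have e : t ^ 2 - 1 = algebraMap F (P.adicCompletion F) (ev b hb (g - 1)) := by
    rw [map_sub, map_sub, ht, map_one, map_one]
    ring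
  rw [e, hv, valued_algebraMap] at h4
  have h5 := dvd_of_val hb prime_aR hva (k := 3) h4
  have h6 := (dvd_a3 _).1 h5
  rw [map_sub, map_one] at h6
  exact sub_eq_zero.1 h6

omit hF in
/-- squares in the completion and classes -/
lemma sqE_sq {q : F} (hq : SqE q (ev b hb g)) {t : F}
    (h : IsSquare (algebraMap F (P.adicCompletion F) (t * q))) :
    IsSquare (algebraMap F (P.adicCompletion F) (t * ev b hb g)) := by
  obtain ⟨z, hz, rfl⟩ := hq
  obtain ⟨c, hc⟩ := h
  have hz' : algebraMap F (P.adicCompletion F) z ≠ 0 := by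
    rw [Ne, map_eq_zero]
    exact hz
  refine ⟨c / algebraMap F (P.adicCompletion F) z, ?_⟩
  rw [map_mul, map_mul, map_pow] at hc
  rw [map_mul]
  field_simp
  linear_combination hc

/-- the place where `b` is not a unit -/
theorem cong_a (h2 : P.valuation F 2 = exp (-1)) (hP : P.valuation F b < 1)
    (hD : D % 4 = 3 ∨ D % 4 = 2) (hq : SqE q (ev b hb g))
    (h : FourD D (algebraMap F (P.adicCompletion F) (1 - b)) (algebraMap F (P.adicCompletion F) q))
    (hg : ¬ aR ∣ g) :
    r8 g = 1 ∨ (D % 4 = 3 ∧ r8 ((D : RR) * (-fR) * g) = 1) := by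
  have A := at2P hb hF P h2 hP hD
  have := charC P
  rw [map_sub, map_one] at h
  have hs : ev b hb (-fR) = 2 * (1 - b) - 1 := by
    unfold fR
    rw [map_neg, map_sub, map_mul, map_ofNat, ev_aR, map_one]
    ring
  rcases loc_a A h with h1 | h1
  · left
    refine sq_r8 hb hF P h2 hP hg ?_
    have h3 := sqE_sq hb P hq (t := 1) (by rwa [one_mul])
    rwa [one_mul] at h3
  · have h3 : IsSquare (algebraMap F (P.adicCompletion F) (ev b hb ((D : RR) * (-fR)) * q)) := by
      rw [map_mul, map_mul, map_natCast, hs]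
      have e : algebraMap F (P.adicCompletion F) ((D : F) * (2 * (1 - b) - 1)) =
          (D : P.adicCompletion F) * (2 * (1 - algebraMap F (P.adicCompletion F) b) - 1) := by
        simp only [map_mul, map_sub, map_natCast, map_ofNat, map_one]
      rw [e]
      exact h1
    have h4 := sqE_sq hb P hq h3
    rw [← map_mul] at h4
    obtain ⟨hvb, hvb1⟩ := val_b hb h2 hP
    have hva : P.valuation F (ev b hb aR) = exp (-1) := by rw [ev_aR]; exact hvb
    have hfo : ¬ aR ∣ (-fR) := odd_a (by rw [nR_neg, nR_fR]; norm_num)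
    rcases hD with hD | hD
    · right
      refine ⟨hD, sq_r8 hb hF P h2 hP ?_ h4⟩
      have hDo : ¬ aR ∣ ((D : ℕ) : RR) := odd_a (by
        rw [nR_nat]
        obtain ⟨e, rfl⟩ : ∃ e, D = 1 + 2 * e := ⟨D / 2, by omega⟩
        push_cast
        have : (1 + 2 * (e : ℤ)) ^ 2 = 1 + 2 * (2 * e + 2 * e ^ 2) := by ring
        omega)
      intro h5
      rcases prime_aR.dvd_or_dvd h5 with h6 | h6
      · rcases prime_aR.dvd_or_dvd h6 with h7 | h7
        · exact hDo h7
        · exact hfo h7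
      · exact hg h6
    · exfalso
      obtain ⟨t, ht⟩ := h4
      obtain ⟨e, rfl⟩ : ∃ e, D = 2 * (1 + 2 * e) := ⟨D / 4, by omega⟩
      have h5 := congrArg (Valued.v : Valuation (P.adicCompletion F) ℤᵐ⁰) ht
      rw [valued_algebraMap, map_mul, map_mul, map_mul, map_mul, map_natCast] at h5
      have h6 : P.valuation F (ev b hb (-fR)) = 1 := unit_val hb prime_aR hva hfo
      have h7 : P.valuation F (ev b hb g) = 1 := unit_val hb prime_aR hva hg
      have h8 : P.valuation F (((2 * (1 + 2 * e) : ℕ)) : F) = exp (-1) := by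
        have h9 : P.valuation F ((1 + 2 * e : ℕ) : F) = 1 := v_oddn h2 (by omega)
        rw [Nat.cast_mul, map_mul, h9, mul_one]
        exact_mod_cast h2
      rw [h6, h7, h8, mul_one, mul_one, ← pow_two] at h5
      have := ev_of_sq h5.symm
      omega

omit hF in
lemma sqE_nm {q : F} (hq : SqE q (ev b hb g)) {r : P.adicCompletion F}
    (h : ∃ u w : P.adicCompletion F, algebraMap F (P.adicCompletion F) q = u ^ 2 + r * w ^ 2) :
    ∃ u w : P.adicCompletion F, algebraMap F (P.adicCompletion F) (ev b hb g) =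
      u ^ 2 + r * w ^ 2 := by
  obtain ⟨z, hz, rfl⟩ := hq
  obtain ⟨u, w, h⟩ := h
  have hz' : algebraMap F (P.adicCompletion F) z ≠ 0 := by
    rw [Ne, map_eq_zero]
    exact hz
  refine ⟨u / algebraMap F (P.adicCompletion F) z, w / algebraMap F (P.adicCompletion F) z, ?_⟩
  rw [map_mul, map_pow] at h
  field_simp
  linear_combination h

/-- the place where `1 - b` is not a unit -/
theorem cong_b (h2 : P.valuation F 2 = exp (-1)) (hP : P.valuation F (1 - b) < 1)
    (hD : D % 4 = 3 ∨ D % 4 = 2) (hq : SqE q (ev b hb g))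
    (h : FourD D (algebraMap F (P.adicCompletion F) (1 - b)) (algebraMap F (P.adicCompletion F) q)) :
    (D % 4 = 3 → (¬ (1 - aR) ∣ g → (1 - aR) ^ 2 ∣ g - 1) ∧
      (∀ g₁, g = (aR - 1) * g₁ → ¬ (1 - aR) ∣ g₁ → 2 * s8 g₁ = 1 + 3 * D)) ∧
    (D % 4 = 2 → (¬ (1 - aR) ∣ g → s8 g = 1 ∨ s8 g = 1 + 3 * D) ∧
      (∀ g₁, g = (aR - 1) * g₁ → ¬ (1 - aR) ∣ g₁ → 10 * s16 g₁ = 11 * D ∨
        10 * s16 g₁ = 4 + 11 * D)) := by
  have hF' : ∀ x : F, ∃ u v : ℚ, x = u + v * (1 - b) := by
    intro x
    obtain ⟨u, v, h⟩ := hF x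
    exact ⟨u + v, -v, by rw [h]; push_cast; ring⟩
  have A := at2P (ha_conj hb) hF' P h2 hP hD
  have := charC P
  obtain ⟨hvb, hvb1⟩ := val_b (ha_conj hb) h2 hP
  have hva : P.valuation F (ev b hb (1 - aR)) = exp (-1) := by
    rw [map_sub, map_one, ev_aR]
    exact hvb
  obtain ⟨u, w, huw⟩ := sqE_nm hb P hq (loc_b A h)
  set v : Valuation (P.adicCompletion F) ℤᵐ⁰ := Valued.v with hv
  set ι := algebraMap F (P.adicCompletion F) with hι
  set ρ : RR := -((D : RR) * (aR + 10)) with hρ
  have hra : ra (D : P.adicCompletion F) (ι (1 - b)) = ι (ev b hb ρ) := by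
    unfold ra
    rw [hρ]
    simp only [map_neg, map_mul, map_add, map_sub, map_natCast, map_ofNat, map_one, ev_aR]
    ring
  have ψv : ∀ x : RR, v (ι (ev b hb x)) = P.valuation F (ev b hb x) := fun x => by
    rw [hv, valued_algebraMap]
  have dv : ∀ (x y : RR) (k : ℕ), v (ι (ev b hb x) - ι (ev b hb y)) ≤ exp (-(k : ℤ)) →
      (1 - aR) ^ k ∣ x - y := by
    intro x y k hk
    rw [← map_sub, ← map_sub, ψv] at hk
    exact dvd_of_val hb prime_bR hva hk
  have c1 : (1 : P.adicCompletion F) = ι (ev b hb 1) := by rw [map_one, map_one]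
  have c1ρ : (1 + ra (D : P.adicCompletion F) (ι (1 - b))) = ι (ev b hb (1 + ρ)) := by
    rw [map_add, map_add, ← hra, map_one, map_one]
  have c4ρ : (4 + ra (D : P.adicCompletion F) (ι (1 - b))) = ι (ev b hb (4 + ρ)) := by
    rw [map_add, map_add, ← hra, map_ofNat, map_ofNat]
  have val1 : ∀ g₁ : RR, ¬ (1 - aR) ∣ g₁ → v (ι (ev b hb ((aR - 1) * g₁))) = exp (-1) := by
    intro g₁ hg₁
    have e : (aR - 1) * g₁ = -((1 - aR) * g₁) := by ring
    rw [ψv, e, map_neg, Valuation.map_neg, map_mul, map_mul, hva,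
      unit_val hb prime_bR hva hg₁, mul_one]
  have val0 : ¬ (1 - aR) ∣ g → v (ι (ev b hb g)) = 1 := fun hg => by
    rw [ψv]
    exact unit_val hb prime_bR hva hg
  have sρ : s8 ρ = 3 * D := by
    rw [hρ]
    simp only [map_neg, map_mul, map_add, map_natCast, map_ofNat, s8_aR]
    have e : (3 + 10 : ZMod 8) = 5 := by decide
    have e2 : (-5 : ZMod 8) = 3 := by decide
    rw [e, ← e2]
    ring
  have tρ : s16 ρ = 11 * D := by
    rw [hρ]
    simp only [map_neg, map_mul, map_add, map_natCast, map_ofNat, s16_aR]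
    have e : (11 + 10 : ZMod 16) = 5 := by decide
    have e2 : (-5 : ZMod 16) = 11 := by decide
    rw [e, ← e2]
    ring
  constructor
  · intro hD3
    -- `ra ≡ 1 mod 4`
    have w4 : v (4 : P.adicCompletion F) = exp (-2) := by
      have e : (4 : P.adicCompletion F) = 2 ^ 2 := by norm_num
      rw [e, map_pow, A.h2, ← exp_nsmul]
      simp
    have hr1 : v (ra (D : P.adicCompletion F) (ι (1 - b)) - 1) ≤ exp (-2) := by
      obtain ⟨e, he⟩ : ∃ e, 5 * D + 1 = 4 * e := ⟨(5 * D + 1) / 4, by omega⟩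
      have he' : (5 : P.adicCompletion F) * (D : P.adicCompletion F) + 1 = 4 * (e : P.adicCompletion F) := by
        exact_mod_cast congrArg (Nat.cast : ℕ → P.adicCompletion F) he
      have e1 : ra (D : P.adicCompletion F) (ι (1 - b)) - 1 =
          (D : P.adicCompletion F) * (ι (1 - b) - 6) - 4 * (e : P.adicCompletion F) := by
        rw [← he']
        unfold ra
        ring
      rw [e1]
      refine (v.map_sub _ _).trans (max_le ?_ ?_)
      · rw [map_mul, A.va6]
        calc v (D : P.adicCompletion F) * exp (-5) ≤ 1 * exp (-5) := mul_le_mul' (w_nat D) le_rfl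
          _ ≤ exp (-2) := by rw [one_mul, exp_le_exp]; norm_num
      · rw [map_mul, w4]
        calc exp (-2) * v (e : P.adicCompletion F) ≤ exp (-2) * 1 := mul_le_mul' le_rfl (w_nat e)
          _ = exp (-2) := mul_one _
    obtain ⟨k1, k2⟩ := norm3 A.h2 A.hres hr1 huw
    constructor
    · intro hg
      have h3 := k1 (val0 hg)
      rw [c1] at h3
      exact dv g 1 2 h3
    · rintro g₁ rfl hg₁
      have h3 := k2 (val1 g₁ hg₁)
      rw [c1ρ] at h3
      have h4 := (dvd_b3 _).1 (dv _ _ 3 h3)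
      rw [map_sub, map_mul, map_sub, s8_aR, map_one, map_add, map_one, sρ] at h4
      have e : (3 - 1 : ZMod 8) = 2 := by decide
      rw [e] at h4
      exact sub_eq_zero.1 h4
  · intro hD2
    have hr1 : v (ra (D : P.adicCompletion F) (ι (1 - b))) = exp (-1) := by
      have h3 := A.vra
      rw [h3]
      rcases A.hD with h4 | h4
      · exfalso
        obtain ⟨e, rfl⟩ : ∃ e, D = 2 * (1 + 2 * e) := ⟨D / 4, by omega⟩
        have h5 : v ((2 * (1 + 2 * e) : ℕ) : P.adicCompletion F) < 1 := by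
          rw [Nat.cast_mul, map_mul]
          refine mul_lt_one_of_lt_of_le ?_ (w_nat _)
          have := A.l2
          exact_mod_cast this
        rw [h4.1] at h5
        exact lt_irrefl _ h5
      · exact h4
    obtain ⟨k1, k2⟩ := normE A.h2 A.hres hr1 huw
    constructor
    · intro hg
      rcases k1 (val0 hg) with h3 | h3
      · left
        rw [c1] at h3
        have h4 := (dvd_b3 _).1 (dv _ _ 3 h3)
        rw [map_sub, map_one] at h4
        exact sub_eq_zero.1 h4
      · right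
        rw [c1ρ] at h3
        have h4 := (dvd_b3 _).1 (dv _ _ 3 h3)
        rw [map_sub, map_add, map_one, sρ] at h4
        exact sub_eq_zero.1 h4
    · rintro g₁ rfl hg₁
      have e : (11 - 1 : ZMod 16) = 10 := by decide
      rcases k2 (val1 g₁ hg₁) with h3 | h3
      · left
        rw [hra] at h3
        have h4 := dvd_b4 (dv _ _ 4 h3)
        rw [map_sub, map_mul, map_sub, s16_aR, map_one, tρ, e] at h4
        exact sub_eq_zero.1 h4
      · right
        rw [c4ρ] at h3
        have h4 := dvd_b4 (dv _ _ 4 h3)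
        rw [map_sub, map_mul, map_sub, s16_aR, map_one, map_add, map_ofNat, tρ, e] at h4
        exact sub_eq_zero.1 h4

end place

end Pool.Agent.L0h23.ED
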