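import Pool.Agent.L0h23.ED.Fin

/-!
# Finiteness of the Mordell-Weil group and triviality of the 2-primary part of the
Tate-Shafarevich group, for `D ≡ 2, 3 mod 4`
-/

set_option autoImplicit false
set_option linter.unusedSectionVars false

namespace Pool.Agent.L0h23.ED

open Pool.Agent.Y698 Pool.Agent.Y698.SG Pool.Agent.L0h23.EV
open WithZero NumberField IsDedekindDomain

/-! ### the field exists -/

section
variable (K : Type) [Field K] [NumberField K] [Algebra K (CyclotomicField 7 ℚ)]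

open IsCyclotomicExtension.Rat
open Pool.Agent.H921R2.TatePole Pool.Agent.H82R3.EK
open Pool.Agent.R428.Q0 (exists_b7 big0)
open Pool.Agent.TH841.NF.D (Sha)

theorem exists_FE (hrat : ∀ k : K, ∃ u : ℚ, k = u) :
    ∃ (F : Type) (_ : Field F) (_ : NumberField F) (_ : Algebra K F) (a : F),
      FE a ∧ (∀ x : F, ∃ k₁ k₂ : K, x = algebraMap K F k₁ + algebraMap K F k₂ * a) ∧
      ∃ (w : Valuation F ℤᵐ⁰) (k : ℤ), w (2 * a - 1) = exp (2 * k + 1) := by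
  have hM : IsCyclotomicExtension {7} ℚ (CyclotomicField 7 ℚ) := cyc_inst 7
  obtain ⟨b, hb⟩ := exists_b7
  have hK : ∀ k : K, k ^ 2 ≠ k - 2 := by
    intro k hk
    obtain ⟨u, rfl⟩ := hrat k
    have h1 : u ^ 2 = u - 2 := by exact_mod_cast hk
    nlinarith [sq_nonneg (2 * u - 1)]
  set F := Fx K b hb hK with hFd
  have hNF : NumberField F := inferInstance
  have hbF : b ∈ F := ⟨0, 1, by simp⟩
  have ha : (⟨b, hbF⟩ : F) ^ 2 = ⟨b, hbF⟩ - 2 := by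
    apply Subtype.ext
    push_cast
    exact hb
  have hFF : ∀ x : F, ∃ k₁ k₂ : K, x = algebraMap K F k₁ + algebraMap K F k₂ * ⟨b, hbF⟩ := by
    rintro ⟨x, k₁, k₂, hx⟩
    refine ⟨k₁, k₂, ?_⟩
    apply Subtype.ext
    exact hx
  have hFQ : ∀ x : F, ∃ u v : ℚ, x = u + v * ⟨b, hbF⟩ := by
    intro x
    obtain ⟨k₁, k₂, h⟩ := hFF x
    obtain ⟨u, rfl⟩ := hrat k₁
    obtain ⟨v, rfl⟩ := hrat k₂
    exact ⟨u, v, by rw [h, map_ratCast, map_ratCast]⟩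
  refine ⟨F, inferInstance, hNF, inferInstance, _, ⟨ha, hFQ, ?_⟩, hFF,
    (big0 (M := CyclotomicField 7 ℚ) ha).2⟩
  intro P p hp hp7 hP
  have hb2 : below P = ⟨p, hp⟩ := by
    apply below_eq_of_mem F (p := ⟨p, hp⟩) P
    have e2 : (p : F) = algebraMap (𝓞 F) F ((p : ℕ) : 𝓞 F) := by
      rw [map_natCast]
    rw [e2] at hP
    exact (P.valuation_lt_one_iff_mem (K := F) _).1 hP
  exact val_unram 7 (CyclotomicField 7 ℚ) F ⟨p, hp⟩ (by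
    intro hdvd
    exact hp7 ((Nat.prime_dvd_prime_iff_eq hp (by norm_num)).1 hdvd)) P hb2

/-- the hypotheses of the descent -/
theorem mc_of {F : Type} [Field F] [NumberField F] {a : F} (E : FE a)
    (h7 : ∃ (w : Valuation F ℤᵐ⁰) (k : ℤ), w (2 * a - 1) = exp (2 * k + 1))
    {D : ℕ} (hD0 : D ≠ 0) (hD7 : Nat.Coprime D 7) (h1 : MainD D a) (h2 : MainD D (1 - a)) :
    MC D a := by
  refine ⟨hD0, h1, h2, ?_⟩
  obtain ⟨w, k, hk⟩ := h7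
  have hw7 : w ((7 : ℕ) : F) < 1 := by
    have h1 : w ((7 : ℕ) : F) = exp (2 * (2 * k + 1)) := by
      have h2 : ((7 : ℕ) : F) = -((2 * a - 1) ^ 2) := by
        rw [s_sq E.hb]
        norm_num
      rw [h2, Valuation.map_neg, map_pow, hk, ← exp_nsmul]
      congr 1
    have h3 := w_nat (w := w) 7
    rw [h1, ← exp_zero, exp_le_exp] at h3
    rw [h1, ← exp_zero, exp_lt_exp]
    omega
  exact ⟨w, k, by rw [map_mul, w_nat_one hD7 hw7, one_mul, hk]⟩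

lemma cop7 {Q S : Finset ℕ} {ϖ : ℕ → RR} (h : Pool.Agent.L0h4.TW.Dt Q S ϖ) :
    Nat.Coprime (∏ p ∈ Q ∪ S, p) 7 :=
  Nat.Coprime.prod_left fun p hp =>
    (Nat.coprime_primes (h.od p hp).pr (by norm_num)).2 (h.od p hp).n7

/-- `D ≡ 3 mod 4` -/
theorem mc3 (hrat : ∀ k : K, ∃ u : ℚ, k = u) (hR : S_R2) {Q S : Finset ℕ} {ϖ : ℕ → RR}
    (h : Pool.Agent.L0h4.TW.Dt Q S ϖ) (h4 : (∏ p ∈ Q ∪ S, p) % 4 = 3)
    (hns : NS3 Q S ϖ (∏ p ∈ Q ∪ S, p)) :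
    ∃ (F : Type) (_ : Field F) (_ : NumberField F) (_ : Algebra K F) (a : F), a ^ 2 = a - 2 ∧
      (∀ x : F, ∃ k₁ k₂ : K, x = algebraMap K F k₁ + algebraMap K F k₂ * a) ∧
      MC (∏ p ∈ Q ∪ S, p) a := by
  obtain ⟨F, i1, i2, i3, a, E, hF, h7⟩ := exists_FE K hrat
  refine ⟨F, i1, i2, i3, a, E.hb, hF, mc_of E h7 (M_ne E h) (cop7 h) ?_ (mainD3 E h hR h4 hns)⟩
  have := mainD3 E.conj h hR h4 hns
  rwa [sub_sub_cancel] at this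

/-- `D ≡ 2 mod 4` -/
theorem mcE (hrat : ∀ k : K, ∃ u : ℚ, k = u) (hR : S_R2) {Q S : Finset ℕ} {ϖ : ℕ → RR}
    (h : Pool.Agent.L0h4.TW.Dt Q S ϖ) (hns : NSE Q S ϖ (∏ p ∈ Q ∪ S, p)) :
    ∃ (F : Type) (_ : Field F) (_ : NumberField F) (_ : Algebra K F) (a : F), a ^ 2 = a - 2 ∧
      (∀ x : F, ∃ k₁ k₂ : K, x = algebraMap K F k₁ + algebraMap K F k₂ * a) ∧
      MC (2 * ∏ p ∈ Q ∪ S, p) a := by
  obtain ⟨F, i1, i2, i3, a, E, hF, h7⟩ := exists_FE K hrat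
  refine ⟨F, i1, i2, i3, a, E.hb, hF, mc_of E h7 (mul_ne_zero two_ne_zero (M_ne E h))
    (Nat.Coprime.mul_left (by norm_num) (cop7 h)) ?_ (mainDE E h hR hns)⟩
  have := mainDE E.conj h hR hns
  rwa [sub_sub_cancel] at this

/-- **`D ≡ 3 mod 4`** -/
theorem fin3 (hrat : ∀ k : K, ∃ u : ℚ, k = u) (hR : S_R2) {Q S : Finset ℕ} {ϖ : ℕ → RR}
    (h : Pool.Agent.L0h4.TW.Dt Q S ϖ) (h4 : (∏ p ∈ Q ∪ S, p) % 4 = 3)
    (hns : NS3 Q S ϖ (∏ p ∈ Q ∪ S, p)) :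
    Finite (WX K (∏ p ∈ Q ∪ S, p)).toAffine.Point ∧
      ∀ (x : Sha (WX K (∏ p ∈ Q ∪ S, p))) (k : ℕ), 2 ^ k • x = 0 → x = 0 := by
  obtain ⟨F, _, _, _, a, ha, hF, hC⟩ := mc3 K hrat hR h h4 hns
  exact ⟨mw_finiteM ha hC, fun x k hx => sha_powM ha hF hC x k hx⟩

/-- **`D ≡ 2 mod 4`** -/
theorem finE (hrat : ∀ k : K, ∃ u : ℚ, k = u) (hR : S_R2) {Q S : Finset ℕ} {ϖ : ℕ → RR}
    (h : Pool.Agent.L0h4.TW.Dt Q S ϖ) (hns : NSE Q S ϖ (∏ p ∈ Q ∪ S, p)) :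
    Finite (WX K (2 * ∏ p ∈ Q ∪ S, p)).toAffine.Point ∧
      ∀ (x : Sha (WX K (2 * ∏ p ∈ Q ∪ S, p))) (k : ℕ), 2 ^ k • x = 0 → x = 0 := by
  obtain ⟨F, _, _, _, a, ha, hF, hC⟩ := mcE K hrat hR h hns
  exact ⟨mw_finiteM ha hC, fun x k hx => sha_powM ha hF hC x k hx⟩

end

end Pool.Agent.L0h23.ED
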