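import Pool.Agent.L0h23.EV.TamB

/-!
# Norms at the places above two
-/

set_option autoImplicit false
set_option linter.unusedSectionVars false

namespace Pool.Agent.L0h23.ED

open Pool.Agent.L0h23.EV WithZero

section
variable {L : Type} [Field L] {v : Valuation L ℤᵐ⁰}

/-- the squares of the units are congruent to one modulo eight -/
lemma sq8 (h2 : v (2 : L) = exp (-1)) (hres : ∀ x : L, v x ≤ 1 → v (x ^ 2 - x) ≤ exp (-1))
    {u : L} (hu : v u = 1) : v (u ^ 2 - 1) ≤ exp (-3) := by
  have h20 : (2 : L) ≠ 0 := by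
    intro h0
    rw [h0, map_zero] at h2
    exact exp_ne_zero h2.symm
  have h1 : v (u - 1) ≤ exp (-1) := by
    have h := hres u hu.le
    have e : u ^ 2 - u = u * (u - 1) := by ring
    rw [e, map_mul, hu, one_mul] at h
    exact h
  have h3 : v (-((u - 1) / 2)) ≤ 1 := by
    rw [Valuation.map_neg, map_div₀, h2]
    calc v (u - 1) / exp (-1) ≤ exp (-1) / exp (-1) := by
          rw [div_eq_mul_inv, div_eq_mul_inv]
          exact mul_le_mul' h1 le_rfl
      _ = 1 := div_self exp_ne_zero
  have h4 := hres _ h3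
  have e : u ^ 2 - 1 = 2 * 2 * ((-((u - 1) / 2)) ^ 2 - (-((u - 1) / 2))) := by
    field_simp
    ring
  rw [e, map_mul, map_mul, h2]
  calc exp (-1) * exp (-1) * v ((-((u - 1) / 2)) ^ 2 - (-((u - 1) / 2))) ≤
      exp (-1) * exp (-1) * exp (-1) := mul_le_mul' le_rfl h4
    _ = exp (-3) := by rw [← exp_add, ← exp_add]; rfl

lemma val_exp {x : L} (hx : x ≠ 0) : ∃ m : ℤ, v x = exp m :=
  ⟨_, (exp_log ((v.ne_zero_iff).2 hx)).symm⟩

lemma v_sq (x : L) {k : ℤ} (h : v x = exp k) : v (x ^ 2) = exp (2 * k) := by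
  rw [map_pow, h, ← exp_nsmul]
  congr 1

lemma v_small {x : L} {k : ℤ} (h : v x = exp k) : v x ≤ exp k := h.le

lemma v_neg_k {x : L} {k n : ℤ} (h : v x = exp k) (hk : 2 * k ≤ n) : v (x ^ 2) ≤ exp n := by
  rw [v_sq x h, exp_le_exp]
  exact hk

/-- norms from a ramified unit extension -/
theorem norm3 (h2 : v (2 : L) = exp (-1)) (hres : ∀ x : L, v x ≤ 1 → v (x ^ 2 - x) ≤ exp (-1))
    {ra : L} (hra : v (ra - 1) ≤ exp (-2)) {x u w : L} (hx : x = u ^ 2 + ra * w ^ 2) :
    (v x = 1 → v (x - 1) ≤ exp (-2)) ∧ (v x = exp (-1) → v (x - (1 + ra)) ≤ exp (-3)) := by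
  have h20 : (2 : L) ≠ 0 := by
    intro h0
    rw [h0, map_zero] at h2
    exact exp_ne_zero h2.symm
  have hra1 : v ra = 1 := by
    have e : ra = 1 + (ra - 1) := by ring
    rw [e, v.map_add_eq_of_lt_left, map_one]
    rw [map_one, ← exp_zero]
    refine hra.trans_lt ?_
    rw [exp_lt_exp]
    norm_num
  have hra2 : v (1 + ra) = exp (-1) := by
    have e : 1 + ra = 2 + (ra - 1) := by ring
    rw [e, v.map_add_eq_of_lt_left, h2]
    rw [h2]
    refine hra.trans_lt ?_
    rw [exp_lt_exp]
    norm_num
  have hsq : ∀ t : L, v t = 1 → v (t ^ 2 - 1) ≤ exp (-3) := fun t ht => sq8 h2 hres ht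
  have h32 : exp (-3 : ℤ) ≤ exp (-2 : ℤ) := by rw [exp_le_exp]; norm_num
  -- the parts which are not minimal
  have hb : ∀ t : L, v (ra * t ^ 2) = v (t ^ 2) := fun t => by rw [map_mul, hra1, one_mul]
  have K1 : ∀ (s t : L), v s = 1 → v (t ^ 2) ≤ exp (-2) → v (s ^ 2 + ra * t ^ 2 - 1) ≤ exp (-2) := by
    intro s t hs ht
    have e : s ^ 2 + ra * t ^ 2 - 1 = (s ^ 2 - 1) + ra * t ^ 2 := by ring
    rw [e]
    refine (v.map_add _ _).trans (max_le ((hsq s hs).trans h32) ?_)
    rw [hb]
    exact ht
  have K2 : ∀ (s t : L), v t = 1 → v (s ^ 2) ≤ exp (-2) → v (s ^ 2 + ra * t ^ 2 - 1) ≤ exp (-2) := by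
    intro s t ht hs
    have e : s ^ 2 + ra * t ^ 2 - 1 = s ^ 2 + (ra * (t ^ 2 - 1) + (ra - 1)) := by ring
    rw [e]
    refine (v.map_add _ _).trans (max_le hs ((v.map_add _ _).trans (max_le ?_ hra)))
    rw [map_mul, hra1, one_mul]
    exact (hsq t ht).trans h32
  by_cases hu0 : u = 0
  · by_cases hw0 : w = 0
    · have hx0 : x = 0 := by rw [hx, hu0, hw0]; ring
      rw [hx0, map_zero]
      exact ⟨fun h => absurd h (by simp), fun h => absurd h.symm exp_ne_zero⟩
    · obtain ⟨l, hl⟩ := val_exp (v := v) hw0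
      have hxv : v x = exp (2 * l) := by
        rw [hx, hu0, zero_pow two_ne_zero, zero_add, hb, v_sq w hl]
      constructor
      · intro h
        rw [hxv, ← exp_zero, exp_inj] at h
        have hl0 : l = 0 := by omega
        rw [hx]
        refine K2 _ _ (by rw [hl, hl0, exp_zero]) ?_
        rw [hu0, zero_pow two_ne_zero, map_zero]
        exact zero_le
      · intro h
        rw [hxv, exp_inj] at h
        omega
  · obtain ⟨k, hk⟩ := val_exp (v := v) hu0
    by_cases hw0 : w = 0
    · have hxv : v x = exp (2 * k) := by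
        rw [hx, hw0, zero_pow two_ne_zero, mul_zero, add_zero, v_sq u hk]
      constructor
      · intro h
        rw [hxv, ← exp_zero, exp_inj] at h
        have hk0 : k = 0 := by omega
        rw [hx]
        refine K1 _ _ (by rw [hk, hk0, exp_zero]) ?_
        rw [hw0, zero_pow two_ne_zero, map_zero]
        exact zero_le
      · intro h
        rw [hxv, exp_inj] at h
        omega
    · obtain ⟨l, hl⟩ := val_exp (v := v) hw0
      rcases lt_trichotomy k l with hkl | hkl | hkl
      · have hxv : v x = exp (2 * l) := by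
          rw [hx, v.map_add_eq_of_lt_right, hb, v_sq w hl]
          rw [hb, v_sq w hl, v_sq u hk, exp_lt_exp]
          omega
        constructor
        · intro h
          rw [hxv, ← exp_zero, exp_inj] at h
          have hl0 : l = 0 := by omega
          rw [hx]
          exact K2 _ _ (by rw [hl, hl0, exp_zero]) (v_neg_k hk (by omega))
        · intro h
          rw [hxv, exp_inj] at h
          omega
      · have ht : v (w / u) = 1 := by rw [map_div₀, hk, hl, hkl, div_self exp_ne_zero]
        have e : x = u ^ 2 * ((1 + ra) + ra * ((w / u) ^ 2 - 1)) := by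
          rw [hx]
          field_simp
          ring
        have h3 : v ((1 + ra) + ra * ((w / u) ^ 2 - 1)) = exp (-1) := by
          rw [v.map_add_eq_of_lt_left, hra2]
          rw [hra2, map_mul, hra1, one_mul]
          refine (hsq _ ht).trans_lt ?_
          rw [exp_lt_exp]
          norm_num
        have hxv : v x = exp (2 * k - 1) := by
          rw [e, map_mul, h3, v_sq u hk, ← exp_add]
          rfl
        constructor
        · intro h
          rw [hxv, ← exp_zero, exp_inj] at h
          omega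
        · intro h
          rw [hxv, exp_inj] at h
          have hk0 : k = 0 := by omega
          have e2 : x - (1 + ra) = (u ^ 2 - 1) + ra * (w ^ 2 - 1) := by rw [hx]; ring
          rw [e2]
          refine (v.map_add _ _).trans (max_le (hsq u (by rw [hk, hk0, exp_zero])) ?_)
          rw [map_mul, hra1, one_mul]
          exact hsq w (by rw [hl, ← hkl, hk0, exp_zero])
      · have hxv : v x = exp (2 * k) := by
          rw [hx, v.map_add_eq_of_lt_left, v_sq u hk]
          rw [hb, v_sq w hl, v_sq u hk, exp_lt_exp]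
          omega
        constructor
        · intro h
          rw [hxv, ← exp_zero, exp_inj] at h
          have hk0 : k = 0 := by omega
          rw [hx]
          exact K1 _ _ (by rw [hk, hk0, exp_zero]) (v_neg_k hl (by omega))
        · intro h
          rw [hxv, exp_inj] at h
          omega

/-- norms, the other case -/
theorem normE (h2 : v (2 : L) = exp (-1)) (hres : ∀ x : L, v x ≤ 1 → v (x ^ 2 - x) ≤ exp (-1))
    {ra : L} (hra : v ra = exp (-1)) {x u w : L} (hx : x = u ^ 2 + ra * w ^ 2) :
    (v x = 1 → v (x - 1) ≤ exp (-3) ∨ v (x - (1 + ra)) ≤ exp (-3)) ∧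
      (v x = exp (-1) → v (x - ra) ≤ exp (-4) ∨ v (x - (4 + ra)) ≤ exp (-4)) := by
  have h20 : (2 : L) ≠ 0 := by
    intro h0
    rw [h0, map_zero] at h2
    exact exp_ne_zero h2.symm
  have hsq : ∀ t : L, v t = 1 → v (t ^ 2 - 1) ≤ exp (-3) := fun t ht => sq8 h2 hres ht
  have hb : ∀ (t : L) (l : ℤ), v t = exp l → v (ra * t ^ 2) = exp (2 * l - 1) := by
    intro t l hl
    rw [map_mul, hra, v_sq t hl, ← exp_add]
    congr 1
    ring
  have h4 : v (4 : L) = exp (-2) := by
    have e : (4 : L) = 2 ^ 2 := by norm_num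
    rw [e, v_sq 2 h2]
    rfl
  -- the two parts
  have K1 : ∀ s : L, v s = 1 → (w = 0 ∨ ∃ l : ℤ, l ≤ 0 ∧ v w = exp l) →
      v (s ^ 2 + ra * w ^ 2 - 1) ≤ exp (-3) ∨ v (s ^ 2 + ra * w ^ 2 - (1 + ra)) ≤ exp (-3) := by
    intro s hs hw
    have e1 : s ^ 2 + ra * w ^ 2 - 1 = (s ^ 2 - 1) + ra * w ^ 2 := by ring
    have e2 : s ^ 2 + ra * w ^ 2 - (1 + ra) = (s ^ 2 - 1) + ra * (w ^ 2 - 1) := by ring
    rcases hw with hw | ⟨l, hl, hwl⟩
    · left
      rw [e1, hw, zero_pow two_ne_zero, mul_zero, add_zero]
      exact hsq s hs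
    · rcases eq_or_ne l 0 with hl0 | hl0
      · right
        rw [e2]
        refine (v.map_add _ _).trans (max_le (hsq s hs) ?_)
        rw [map_mul, hra]
        calc exp (-1) * v (w ^ 2 - 1) ≤ exp (-1) * exp (-3) :=
              mul_le_mul' le_rfl (hsq w (by rw [hwl, hl0, exp_zero]))
          _ ≤ exp (-3) := by rw [← exp_add, exp_le_exp]; norm_num
      · left
        rw [e1]
        refine (v.map_add _ _).trans (max_le (hsq s hs) ?_)
        rw [hb w l hwl, exp_le_exp]
        omega
  have K2 : ∀ t : L, v t = 1 → (u = 0 ∨ ∃ k : ℤ, k ≤ -1 ∧ v u = exp k) →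
      v (u ^ 2 + ra * t ^ 2 - ra) ≤ exp (-4) ∨ v (u ^ 2 + ra * t ^ 2 - (4 + ra)) ≤ exp (-4) := by
    intro t ht hu
    have e1 : u ^ 2 + ra * t ^ 2 - ra = u ^ 2 + ra * (t ^ 2 - 1) := by ring
    have e2 : u ^ 2 + ra * t ^ 2 - (4 + ra) = 4 * ((u / 2) ^ 2 - 1) + ra * (t ^ 2 - 1) := by
      field_simp
      ring
    have h3 : v (ra * (t ^ 2 - 1)) ≤ exp (-4) := by
      rw [map_mul, hra]
      calc exp (-1) * v (t ^ 2 - 1) ≤ exp (-1) * exp (-3) := mul_le_mul' le_rfl (hsq t ht)
        _ = exp (-4) := by rw [← exp_add]; rfl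
    rcases hu with hu | ⟨k, hk, huk⟩
    · left
      rw [e1, hu, zero_pow two_ne_zero, zero_add]
      exact h3
    · rcases eq_or_ne k (-1) with hk0 | hk0
      · right
        rw [e2]
        refine (v.map_add _ _).trans (max_le ?_ h3)
        rw [map_mul, h4]
        have h5 : v (u / 2) = 1 := by rw [map_div₀, h2, huk, hk0, div_self exp_ne_zero]
        calc exp (-2) * v ((u / 2) ^ 2 - 1) ≤ exp (-2) * exp (-3) := mul_le_mul' le_rfl (hsq _ h5)
          _ ≤ exp (-4) := by rw [← exp_add, exp_le_exp]; norm_num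
      · left
        rw [e1]
        refine (v.map_add _ _).trans (max_le (v_neg_k huk (by omega)) h3)
  by_cases hu0 : u = 0
  · by_cases hw0 : w = 0
    · have hx0 : x = 0 := by rw [hx, hu0, hw0]; ring
      rw [hx0, map_zero]
      exact ⟨fun h => absurd h (by simp), fun h => absurd h.symm exp_ne_zero⟩
    · obtain ⟨l, hl⟩ := val_exp (v := v) hw0
      have hxv : v x = exp (2 * l - 1) := by
        rw [hx, hu0, zero_pow two_ne_zero, zero_add, hb w l hl]
      constructor
      · intro h
        rw [hxv, ← exp_zero, exp_inj] at h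
        omega
      · intro h
        rw [hxv, exp_inj] at h
        have hl0 : l = 0 := by omega
        rw [hx]
        exact K2 w (by rw [hl, hl0, exp_zero]) (Or.inl hu0)
  · obtain ⟨k, hk⟩ := val_exp (v := v) hu0
    by_cases hw0 : w = 0
    · have hxv : v x = exp (2 * k) := by
        rw [hx, hw0, zero_pow two_ne_zero, mul_zero, add_zero, v_sq u hk]
      constructor
      · intro h
        rw [hxv, ← exp_zero, exp_inj] at h
        have hk0 : k = 0 := by omega
        rw [hx]
        exact K1 u (by rw [hk, hk0, exp_zero]) (Or.inl hw0)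
      · intro h
        rw [hxv, exp_inj] at h
        omega
    · obtain ⟨l, hl⟩ := val_exp (v := v) hw0
      rcases lt_or_ge k l with hkl | hkl
      · have hxv : v x = exp (2 * l - 1) := by
          rw [hx, v.map_add_eq_of_lt_right, hb w l hl]
          rw [hb w l hl, v_sq u hk, exp_lt_exp]
          omega
        constructor
        · intro h
          rw [hxv, ← exp_zero, exp_inj] at h
          omega
        · intro h
          rw [hxv, exp_inj] at h
          have hl0 : l = 0 := by omega
          rw [hx]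
          exact K2 w (by rw [hl, hl0, exp_zero]) (Or.inr ⟨k, by omega, hk⟩)
      · have hxv : v x = exp (2 * k) := by
          rw [hx, v.map_add_eq_of_lt_left, v_sq u hk]
          rw [hb w l hl, v_sq u hk, exp_lt_exp]
          omega
        constructor
        · intro h
          rw [hxv, ← exp_zero, exp_inj] at h
          have hk0 : k = 0 := by omega
          rw [hx]
          exact K1 u (by rw [hk, hk0, exp_zero]) (Or.inr ⟨l, by omega, hl⟩)
        · intro h
          rw [hxv, exp_inj] at h
          omega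

end

end Pool.Agent.L0h23.ED
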