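import Pool.Agent.L0h23.ED.Lcc
import Pool.Agent.R428.Q0.Cy

/-!
# The odd places, and the global classes
-/

set_option autoImplicit false
set_option linter.unusedSectionVars false

attribute [-instance] DivisionRing.toRatAlgebra

namespace Pool.Agent.L0h23.ED

open Pool.Agent.Y698 Pool.Agent.Y698.SG Pool.Agent.L0h4.TW Pool.Agent.L0h23.EV
open Pool.Agent.R428.Q0 (classes1)
open Pool.Agent.W192.HK (sp)
open WithZero NumberField IsDedekindDomain

section gen
variable {F : Type*} [Field F] [CharZero F] {b : F} (hb : b ^ 2 = b - 2)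

/-- squares at the places of the primes of `RR` -/
theorem sq_sym (hF : ∀ x : F, ∃ u v : ℚ, x = u + v * b) {w : Valuation F ℤᵐ⁰} {π : RR}
    (hπ : Prime π) (hw : w (ev b hb π) < 1) {x : RR} (hx : x ∉ sp π) (h : Sq w (ev b hb x)) :
    sy π x = 1 := by
  have hx' : ¬ π ∣ x := fun h0 => hx (Ideal.mem_span_singleton.2 h0)
  have u1 : ∀ t : RR, ¬ π ∣ t → w (ev b hb t) = 1 := fun t ht =>
    le_antisymm (w_ev hb w t) (not_lt.1 fun h1 => ht ((undr_eq hb hπ hw t).1 h1))
  obtain ⟨z, hz, hzx⟩ := h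
  have hz1 : w z = 1 := by
    have h1 := Sq.val hzx
    rw [u1 x hx'] at h1
    exact (pow_eq_one_iff_of_nonneg zero_le two_ne_zero).1 h1.symm
  rw [hz1, one_pow] at hzx
  obtain ⟨g, h, hh, hgh⟩ := frac hb hF z
  have hg0 : g ≠ 0 := by
    rintro rfl
    rw [map_zero] at hgh
    rcases mul_eq_zero.1 hgh with h1 | h1
    · exact hz h1
    · exact ev_ne hb hh h1
  obtain ⟨m, g', hg', hgm⟩ : ∃ (m : ℕ) (g' : RR), ¬ π ∣ g' ∧ g = π ^ m * g' := by
    obtain ⟨g', h1, h2⟩ := (FiniteMultiplicity.of_prime_left hπ hg0).exists_eq_pow_mul_and_not_dvd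
    exact ⟨_, g', h2, h1⟩
  obtain ⟨n, h', hh', hhn⟩ : ∃ (n : ℕ) (h' : RR), ¬ π ∣ h' ∧ h = π ^ n * h' := by
    obtain ⟨g', h1, h2⟩ := (FiniteMultiplicity.of_prime_left hπ hh).exists_eq_pow_mul_and_not_dvd
    exact ⟨_, g', h2, h1⟩
  have hψ0 : ev b hb π ≠ 0 := ev_ne hb hπ.ne_zero
  have hwb0 : 0 < w (ev b hb π) := zero_lt_iff.2 ((Valuation.ne_zero_iff w).2 hψ0)
  have hmn : m = n := by
    have h1 := congrArg w hgh
    rw [hgm, hhn, map_mul, map_mul, map_mul, map_mul, map_mul, map_pow, map_pow, map_pow, map_pow,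
      u1 _ hg', u1 _ hh', mul_one, mul_one, hz1, one_mul] at h1
    rcases lt_trichotomy m n with h2 | h2 | h2
    · exact absurd h1 (pow_lt_pow_right_of_lt_one₀ hwb0 hw h2).ne
    · exact h2
    · exact absurd h1 (pow_lt_pow_right_of_lt_one₀ hwb0 hw h2).ne'
  subst hmn
  have hz2 : z * ev b hb h' = ev b hb g' := by
    apply mul_left_cancel₀ (pow_ne_zero m hψ0)
    rw [hgm, hhn, map_mul, map_mul, map_pow] at hgh
    rw [← hgh]
    ring
  have h1 : (ev b hb x - z ^ 2) * ev b hb h' ^ 2 = ev b hb (x * h' ^ 2 - g' ^ 2) := by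
    rw [map_sub, map_mul, map_pow, map_pow, ← hz2]
    ring
  have h2 := congrArg w h1
  rw [map_mul, map_pow, u1 _ hh', one_pow, mul_one] at h2
  rw [h2, undr_eq hb hπ hw] at hzx
  -- the quotient
  have hcop : IsCoprime π h' := cop_of hπ (fun h0 => hh' (Ideal.mem_span_singleton.1 h0))
  obtain ⟨u, v, huv⟩ := hcop
  unfold sy
  rw [if_neg hx, if_pos]
  refine ⟨Ideal.Quotient.mk _ (g' * v), ?_⟩
  rw [← map_mul, Ideal.Quotient.eq, Ideal.mem_span_singleton]
  obtain ⟨c, hc⟩ := hzx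
  refine ⟨v ^ 2 * c + x * u * (1 + v * h'), ?_⟩
  linear_combination v ^ 2 * hc - x * (1 + v * h') * huv

/-- the classes with the given parities -/
noncomputable def cc (s e y z : Bool) : RR :=
  (if s then -1 else 1) * (if e then -fR else 1) * (if y then aR else 1) *
    (if z then aR - 1 else 1)

lemma prime_cR : Prime (aR - 1) := by
  have h := prime_bR.neg
  have e : -(1 - aR) = aR - 1 := by ring
  rwa [e] at h

/-- the global classes -/
theorem cls {V : Set (Valuation F ℤᵐ⁰)} (hB : Big b hb 1 V) {ι : Type} [DecidableEq ι]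
    (I : Finset ι) (π : ι → RR) (hI : ∀ i ∈ I, Prime (π i)) {g : RR} (hg0 : g ≠ 0)
    (hEv : ∀ w ∈ V, w 7 = 1 → w b = 1 → w (1 - b) = 1 → (∀ i ∈ I, w (ev b hb (π i)) = 1) →
      Ev w (ev b hb g)) : ∃ (s e y z : Bool) (T : Finset ι), T ⊆ I ∧
      SqE (ev b hb g) (ev b hb (cc s e y z * ∏ i ∈ T, π i)) := by
  have hψa : ev b hb aR ≠ 0 := ev_ne hb prime_aR.ne_zero
  have hψc : ev b hb (aR - 1) ≠ 0 := ev_ne hb prime_cR.ne_zero
  have wc : ∀ w : Valuation F ℤᵐ⁰, w (ev b hb (aR - 1)) = w (1 - b) := by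
    intro w
    rw [map_sub, map_one, ev_aR, ← Valuation.map_neg]
    congr 1
    ring
  obtain ⟨y, hy⟩ := classes_step' (V := V) hb prime_aR hψa
    (fun w => w (7 : F) = 1 ∧ w (1 - b) = 1 ∧ ∀ i ∈ I, w (ev b hb (π i)) = 1) hg0 (by
      rintro w hw ⟨h7, h1, hi⟩ ha
      rw [ev_aR] at ha
      exact hEv w hw h7 ha h1 hi)
  have hg1 : g * (if y then aR else 1) ≠ 0 := by
    refine mul_ne_zero hg0 ?_
    split_ifs
    · exact prime_aR.ne_zero
    · exact one_ne_zero
  obtain ⟨z, hz⟩ := classes_step' (V := V) hb prime_cR hψc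
    (fun w => w (7 : F) = 1 ∧ ∀ i ∈ I, w (ev b hb (π i)) = 1) hg1 (by
      rintro w hw ⟨h7, hi⟩ h1
      rw [wc] at h1
      exact hy w hw ⟨h7, h1, hi⟩)
  have hg2 : g * (if y then aR else 1) * (if z then (aR - 1) else 1) ≠ 0 := by
    refine mul_ne_zero hg1 ?_
    split_ifs
    · exact prime_cR.ne_zero
    · exact one_ne_zero
  obtain ⟨T, hT, hT'⟩ := classes_set' (V := V) (r := 1) hb I π
    (fun i hi => ⟨hI i hi, ev_ne hb (hI i hi).ne_zero⟩) _ hg2 (by
      intro w hw h7 hr hq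
      exact hz w hw ⟨h7, hq⟩)
  set g2 := g * (if y then aR else 1) * (if z then (aR - 1) else 1) with hg2d
  have hPR : (∏ i ∈ T, π i) ≠ 0 := Finset.prod_ne_zero_iff.2 fun i hi => (hI i (hT hi)).ne_zero
  -- multiplying back
  have hback : ∀ t : RR, SqE (ev b hb (g2 * ∏ i ∈ T, π i)) (ev b hb t) →
      SqE (ev b hb g) (ev b hb (t * (if y then aR else 1) * (if z then (aR - 1) else 1) *
        ∏ i ∈ T, π i)) := by
    rintro t ⟨r, hr, h⟩
    set Y : RR := (if y then aR else 1) with hY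
    set Z : RR := (if z then (aR - 1) else 1) with hZ
    have hY0 : ev b hb Y ≠ 0 := right_ne_zero_of_mul (a := ev b hb g) (by
      rw [← map_mul]; exact ev_ne hb hg1)
    have hZ0 : ev b hb Z ≠ 0 := right_ne_zero_of_mul (a := ev b hb (g * Y)) (by
      rw [← map_mul]; exact ev_ne hb hg2)
    have hP0 := ev_ne hb hPR
    refine ⟨r / (ev b hb Y * ev b hb Z * ev b hb (∏ i ∈ T, π i)),
      div_ne_zero hr (mul_ne_zero (mul_ne_zero hY0 hZ0) hP0), ?_⟩
    rw [hg2d] at h
    simp only [map_mul] at h ⊢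
    field_simp
    linear_combination h
  have hs : ev b hb fR = 2 * b - 1 := by
    unfold fR
    rw [map_sub, map_mul, map_ofNat, ev_aR, map_one]
  rcases classes1 hb hB _ (mul_ne_zero hg2 hPR) hT' with h | h | h | h
  · refine ⟨false, false, y, z, T, hT, ?_⟩
    have := hback 1 (by rwa [map_one])
    unfold cc
    simpa using this
  · refine ⟨true, false, y, z, T, hT, ?_⟩
    have := hback (-1) (by rwa [map_neg, map_one])
    unfold cc
    simpa using this
  · refine ⟨true, true, y, z, T, hT, ?_⟩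
    have := hback fR (by rwa [hs])
    unfold cc
    simpa using this
  · refine ⟨false, true, y, z, T, hT, ?_⟩
    have := hback (-fR) (by rwa [map_neg, hs])
    unfold cc
    simpa using this

/-- the odd places -/
theorem odd_four {a : F} (ha : a ^ 2 = a - 2) {w : Valuation F ℤᵐ⁰} {D : ℕ} (hD0 : D ≠ 0)
    (h2 : w 2 = 1) (h7 : w 7 = 1) {q : F} (hq : q ≠ 0) (h : FourD D a q) :
    (w (D : F) = 1 → Ev w q) ∧
      (w (D : F) = exp (-1) → Sq w q ∨ Sq w ((D : F) * (2 * a - 1) * q)) := by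
  have hs0 : 2 * a - 1 ≠ 0 := s_ne ha
  have hD0' : (D : F) ≠ 0 := by exact_mod_cast hD0
  have ha0 : a ≠ 0 := by
    rintro rfl
    norm_num at ha
  have hδ0 : (D : F) * (2 * a - 1) ≠ 0 := mul_ne_zero hD0' hs0
  -- the class of the point of order two
  have kδ : (w (D : F) = 1 → Ev w ((D : F) * (2 * a - 1))) ∧ (w (D : F) = exp (-1) →
      Sq w ((D : F) * (2 * a - 1)) ∨ Sq w ((D : F) * (2 * a - 1) * ((D : F) * (2 * a - 1)))) := by
    constructor
    · intro h1
      exact ⟨1, one_ne_zero, by rw [map_mul, h1, w_s_one ha h7, one_mul, map_one, one_pow]⟩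
    · intro _
      right
      have := Sq.sq (w := w) hδ0
      rwa [pow_two] at this
  have kE : ∀ {d d' : F}, ((w (D : F) = 1 → Ev w d') ∧ (w (D : F) = exp (-1) →
      Sq w d' ∨ Sq w ((D : F) * (2 * a - 1) * d'))) → SqE d d' →
      ((w (D : F) = 1 → Ev w d) ∧ (w (D : F) = exp (-1) →
      Sq w d ∨ Sq w ((D : F) * (2 * a - 1) * d))) := by
    intro d d' h h'
    refine ⟨fun h1 => (h.1 h1).sqE h', fun h1 => ?_⟩
    rcases h.2 h1 with h2 | h2
    · exact Or.inl (h2.sqE h')
    · exact Or.inr (h2.sqE ((SqE.refl _).mul h'))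
  rcases h with ⟨x, y, hy, h, hsq⟩ | h | h | h
  · have hx : x - rB D a ≠ 0 := by
      intro h0
      rw [h0, mul_zero] at h
      exact hy (pow_eq_zero_iff two_ne_zero |>.1 h)
    refine kE ⟨fun h1 => ?_, fun h1 => ?_⟩ (sqE_of hx hq hsq)
    · exact ev_oddD ha h1 h2 h7 hy h
    · exact sq_D ha h1 h2 h7 hy h
  · have h1 : SqE q 1 := sqE_of one_ne_zero hq (by rwa [one_mul])
    refine kE ⟨fun _ => ⟨1, one_ne_zero, by rw [map_one, one_pow]⟩, fun _ => Or.inl ?_⟩ h1
    have := Sq.sq (w := w) (z := (1 : F)) one_ne_zero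
    rwa [one_pow] at this
  · have e : -rB D a = (D : F) * (2 * a - 1) * a ^ 4 := by unfold rB eB; ring
    have h1 : SqE q (-rB D a) := sqE_of (by
      rw [e]
      exact mul_ne_zero hδ0 (pow_ne_zero 4 ha0)) hq h
    refine kE kδ (h1.trans ⟨a ^ 2, pow_ne_zero 2 ha0, ?_⟩)
    rw [e]
    ring
  · rw [rA_sub ha] at h
    exact kE kδ (sqE_of hδ0 hq h)

end gen

section place
variable {F : Type} [Field F] [NumberField F] {b : F} (hb : b ^ 2 = b - 2)

include hb in
/-- the odd places, from the completions -/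
theorem odd_P (P : HeightOneSpectrum (𝓞 F)) {D : ℕ} (hD0 : D ≠ 0) (h2 : P.valuation F 2 = 1)
    (h7 : P.valuation F 7 = 1) {q : F} (hq : q ≠ 0)
    (h : FourD D (algebraMap F (P.adicCompletion F) (1 - b))
      (algebraMap F (P.adicCompletion F) q)) :
    (P.valuation F (D : F) = 1 → Ev (P.valuation F) q) ∧
      (P.valuation F (D : F) = exp (-1) →
        Sq (P.valuation F) q ∨ Sq (P.valuation F) ((D : F) * (2 * (1 - b) - 1) * q)) := by
  have hch := charC P
  have hcoe := valP_nat P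
  have h7' : (Valued.v : Valuation (P.adicCompletion F) ℤᵐ⁰) 7 = 1 := by
    have e := hcoe 7
    have e2 : P.valuation F ((7 : ℕ) : F) = 1 := by exact_mod_cast h7
    rw [e2] at e
    exact_mod_cast e
  have h2' : (Valued.v : Valuation (P.adicCompletion F) ℤᵐ⁰) 2 = 1 := by
    have e := hcoe 2
    have e2 : P.valuation F ((2 : ℕ) : F) = 1 := by exact_mod_cast h2
    rw [e2] at e
    exact_mod_cast e
  have haE : (algebraMap F (P.adicCompletion F) (1 - b)) ^ 2 =
      algebraMap F (P.adicCompletion F) (1 - b) - 2 := by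
    rw [← map_pow, ha_conj hb, map_sub, map_ofNat]
  have hqE : algebraMap F (P.adicCompletion F) q ≠ 0 := by
    rw [Ne, map_eq_zero]
    exact hq
  have h8 := odd_four haE hD0 h2' h7' hqE h
  constructor
  · intro h1
    exact (h8.1 (by rw [hcoe]; exact h1)).down P
  · intro h1
    rcases h8.2 (by rw [hcoe]; exact h1) with h9 | h9
    · exact Or.inl (h9.down P)
    · right
      have e : (D : P.adicCompletion F) * (2 * algebraMap F (P.adicCompletion F) (1 - b) - 1) *
          algebraMap F (P.adicCompletion F) q =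
          algebraMap F _ ((D : F) * (2 * (1 - b) - 1) * q) := by
        rw [map_mul, map_mul, map_sub (algebraMap F (P.adicCompletion F)) (2 * (1 - b)), map_mul,
          map_natCast, map_ofNat, map_one]
      rw [e] at h9
      exact h9.down P

end place

end Pool.Agent.L0h23.ED
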