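import Pool.Agent.L0h23.ED.Rr
import Pool.Agent.L0h23.ED.Lcb
import Pool.Agent.L0h23.ED.Nm
import Pool.Agent.L0h23.EV.Hen

/-!
# The places above two of `ℚ(√-7)`
-/

set_option autoImplicit false
set_option linter.unusedSectionVars false

attribute [-instance] DivisionRing.toRatAlgebra

namespace Pool.Agent.L0h23.ED

open Pool.Agent.Y698 Pool.Agent.Y698.SG Pool.Agent.L0h4.TW Pool.Agent.L0h23.EV
open WithZero NumberField IsDedekindDomain

lemma prime_aR : Prime aR := prime_of_nR Nat.prime_two nR_a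
lemma prime_bR : Prime (1 - aR) := prime_of_nR Nat.prime_two nR_b

section frac
variable {F : Type*} [Field F] [CharZero F] {b : F} (hb : b ^ 2 = b - 2)

/-- fractions -/
lemma frac (hF : ∀ x : F, ∃ u v : ℚ, x = u + v * b) (x : F) :
    ∃ g h : RR, h ≠ 0 ∧ x * ev b hb h = ev b hb g := by
  obtain ⟨u, v, rfl⟩ := hF x
  have hu : ((u.den : ℕ) : F) ≠ 0 := by exact_mod_cast u.den_ne_zero
  have hv : ((v.den : ℕ) : F) ≠ 0 := by exact_mod_cast v.den_ne_zero
  have eu : (u : F) * (u.den : F) = (u.num : F) := by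
    have := Rat.mul_den_eq_num u
    exact_mod_cast congrArg (Rat.cast : ℚ → F) this
  have ev' : (v : F) * (v.den : F) = (v.num : F) := by
    have := Rat.mul_den_eq_num v
    exact_mod_cast congrArg (Rat.cast : ℚ → F) this
  refine ⟨(u.num : RR) * (v.den : RR) + (v.num : RR) * (u.den : RR) * aR,
    (u.den : RR) * (v.den : RR), ?_, ?_⟩
  · refine mul_ne_zero ?_ ?_
    · intro h0
      have := congrArg (ev b hb) h0
      rw [map_natCast, map_zero] at this
      exact hu this
    · intro h0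
      have := congrArg (ev b hb) h0
      rw [map_natCast, map_zero] at this
      exact hv this
  · simp only [map_add, map_mul, map_natCast, map_intCast, ev_aR]
    linear_combination (v.den : F) * eu + (u.den : F) * b * ev'

include hb in
/-- the residue field of the place where `b` is not a unit -/
lemma resF {w : Valuation F ℤᵐ⁰} (hF : ∀ x : F, ∃ u v : ℚ, x = u + v * b) (hw : w b < 1) {x : F}
    (hx : w x ≤ 1) : w (x ^ 2 - x) < 1 := by
  obtain ⟨g, h, hh, hgh⟩ := frac hb hF x
  have hwa : w (ev b hb aR) < 1 := by rw [ev_aR]; exact hw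
  have hb0 : b ≠ 0 := by
    rintro rfl
    norm_num at hb
  have hwb0 : 0 < w b := zero_lt_iff.2 ((Valuation.ne_zero_iff w).2 hb0)
  by_cases hg0 : g = 0
  · rw [hg0, map_zero] at hgh
    rcases mul_eq_zero.1 hgh with h1 | h1
    · rw [h1]
      simp
    · exact absurd h1 (ev_ne hb hh)
  obtain ⟨m, g', hg', hgm⟩ : ∃ (m : ℕ) (g' : RR), ¬ aR ∣ g' ∧ g = aR ^ m * g' := by
    obtain ⟨g', h1, h2⟩ := (FiniteMultiplicity.of_prime_left prime_aR hg0).exists_eq_pow_mul_and_not_dvd
    exact ⟨_, g', h2, h1⟩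
  obtain ⟨n, h', hh', hhn⟩ : ∃ (n : ℕ) (h' : RR), ¬ aR ∣ h' ∧ h = aR ^ n * h' := by
    obtain ⟨g', h1, h2⟩ := (FiniteMultiplicity.of_prime_left prime_aR hh).exists_eq_pow_mul_and_not_dvd
    exact ⟨_, g', h2, h1⟩
  have u1 : ∀ t : RR, ¬ aR ∣ t → w (ev b hb t) = 1 := fun t ht =>
    le_antisymm (w_ev hb w t) (not_lt.1 fun h1 => ht ((undr_eq hb prime_aR hwa t).1 h1))
  have hmn : n ≤ m := by
    by_contra hcon
    push Not at hcon
    have h1 := congrArg w hgh
    rw [hgm, hhn, map_mul, map_mul, map_mul, map_mul, map_mul, map_pow, map_pow, map_pow, map_pow,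
      u1 _ hg', u1 _ hh', mul_one, mul_one, ev_aR] at h1
    have h2 : w b ^ n < w b ^ m := pow_lt_pow_right_of_lt_one₀ hwb0 hw hcon
    have h3 : w x * w b ^ n ≤ w b ^ n := mul_le_of_le_one_left' hx
    rw [h1] at h3
    exact absurd (h3.trans_lt h2) (lt_irrefl _)
  obtain ⟨k, rfl⟩ : ∃ k, m = n + k := ⟨m - n, by omega⟩
  have hx2 : x * ev b hb h' = ev b hb (aR ^ k * g') := by
    have h1 : ev b hb (aR ^ n) ≠ 0 := ev_ne hb (pow_ne_zero n prime_aR.ne_zero)
    apply mul_left_cancel₀ h1
    rw [hgm, hhn, map_mul] at hgh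
    rw [← map_mul]
    have e : aR ^ n * (aR ^ k * g') = aR ^ (n + k) * g' := by rw [pow_add]; ring
    rw [e, ← hgh]
    ring
  set t := aR ^ k * g' with ht
  have h1 : (x ^ 2 - x) * ev b hb h' ^ 2 = ev b hb (t * (t - h')) := by
    rw [map_mul, map_sub, ← hx2]
    ring
  have h2 := congrArg w h1
  rw [map_mul, map_pow, u1 _ hh', one_pow, mul_one] at h2
  rw [h2, undr_eq hb prime_aR hwa]
  by_cases h3 : aR ∣ t
  · exact h3.mul_right _
  · refine Dvd.dvd.mul_left ?_ _
    rw [dvd_a1] at h3 hh' ⊢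
    rw [map_sub]
    revert h3 hh'
    generalize r8 t = t'
    generalize r8 h' = h''
    revert t' h''
    decide

end frac

section place
variable {F : Type} [Field F] [NumberField F] {b : F} (hb : b ^ 2 = b - 2)
  (hF : ∀ x : F, ∃ u v : ℚ, x = u + v * b)

lemma lt_le_exp {x : ℤᵐ⁰} (h : x < 1) : x ≤ exp (-1) := by
  by_cases h0 : x = 0
  · rw [h0]; exact zero_le
  · rw [← exp_log h0] at h ⊢
    rw [← exp_zero, exp_lt_exp] at h
    rw [exp_le_exp]
    omega

include hb hF in
/-- the residue field in the completion -/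
lemma resP (P : HeightOneSpectrum (𝓞 F)) (hP : P.valuation F b < 1) (x : P.adicCompletion F)
    (hx : (Valued.v : Valuation (P.adicCompletion F) ℤᵐ⁰) x ≤ 1) :
    (Valued.v : Valuation (P.adicCompletion F) ℤᵐ⁰) (x ^ 2 - x) ≤ exp (-1) := by
  set v : Valuation (P.adicCompletion F) ℤᵐ⁰ := Valued.v with hv
  obtain ⟨z', hz'⟩ : ∃ z' : F, v (algebraMap F (P.adicCompletion F) z' - x) < 1 := by
    have hd := P.denseRange_algebraMap F
    have hopen : {y : P.adicCompletion F | v (y - x) < 1} ∈ nhds x := by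
      rw [Valued.mem_nhds]
      have hr : v.restrict (1 : P.adicCompletion F) ≠ 0 := by
        rw [Ne, Valuation.restrict_eq_zero_iff, map_one]
        exact one_ne_zero
      refine ⟨Units.mk0 _ hr, fun y hy => ?_⟩
      have hy' : v.restrict (y - x) < v.restrict (1 : P.adicCompletion F) := hy
      rw [Valuation.restrict_lt_iff, map_one] at hy'
      exact hy'
    obtain ⟨y, ⟨z', rfl⟩, hy⟩ := hd.inter_nhds_nonempty hopen
    exact ⟨z', hy⟩
  set Z := algebraMap F (P.adicCompletion F) z' with hZ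
  have hvZ : v Z ≤ 1 := by
    have e : Z = (Z - x) + x := by ring
    rw [e]
    exact (v.map_add _ _).trans (max_le hz'.le hx)
  have hwz : P.valuation F z' ≤ 1 := by
    rw [← valued_algebraMap]
    exact hvZ
  have h1 := resF hb hF hP hwz
  have h2 : v (Z ^ 2 - Z) < 1 := by
    have e : Z ^ 2 - Z = algebraMap F (P.adicCompletion F) (z' ^ 2 - z') := by
      rw [map_sub, map_pow]
    rw [e, hv, valued_algebraMap]
    exact h1
  apply lt_le_exp
  have e : x ^ 2 - x = (Z ^ 2 - Z) + -((Z - x) * ((Z - x) + 2 * x - 1)) := by ring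
  rw [e]
  refine v.map_add_lt h2 ?_
  rw [Valuation.map_neg, map_mul]
  refine mul_lt_one_of_lt_of_le hz' ?_
  refine (v.map_sub _ _).trans (max_le ((v.map_add _ _).trans (max_le hz'.le ?_)) ?_)
  · rw [map_mul]
    exact mul_le_one' w_two_le hx
  · rw [map_one]

lemma w2_of {w : Valuation F ℤᵐ⁰} (hb : b ^ 2 = b - 2) (hw : w b < 1) : w 2 < 1 := by
  have := congrArg w (ab_eq hb)
  rw [← this, map_mul]
  exact mul_lt_one_of_lt_of_le hw (wa_le (ha_conj hb))

lemma valP_nat (P : HeightOneSpectrum (𝓞 F)) (n : ℕ) :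
    (Valued.v : Valuation (P.adicCompletion F) ℤᵐ⁰) (n : P.adicCompletion F) =
      P.valuation F (n : F) := by
  have e : (n : P.adicCompletion F) = algebraMap F _ (n : F) := (map_natCast _ n).symm
  rw [e, valued_algebraMap]

include hb hF in
/-- the data at a place above two -/
theorem at2P (P : HeightOneSpectrum (𝓞 F)) (h2 : P.valuation F 2 = exp (-1))
    (hP : P.valuation F b < 1) {D : ℕ} (hD : D % 4 = 3 ∨ D % 4 = 2) :
    At2 (Valued.v : Valuation (P.adicCompletion F) ℤᵐ⁰) (D : P.adicCompletion F)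
      (algebraMap F (P.adicCompletion F) b) := by
  have := charC P
  set w : Valuation (P.adicCompletion F) ℤᵐ⁰ := Valued.v with hw
  have w2 : w 2 = exp (-1) := by
    have h3 := valP_nat P 2
    rw [← hw] at h3
    have h4 : P.valuation F ((2 : ℕ) : F) = exp (-1) := by exact_mod_cast h2
    rw [h4] at h3
    exact_mod_cast h3
  have w4 : w 4 = exp (-2) := by
    have e : (4 : P.adicCompletion F) = 2 ^ 2 := by norm_num
    rw [e, map_pow, w2, ← exp_nsmul]
    simp
  have l2 : w (2 : P.adicCompletion F) < 1 := by rw [w2, ← exp_zero, exp_lt_exp]; norm_num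
  refine ⟨w2, fun x hx => ?_, fun x hx => resP hb hF P hP x hx, ?_, ?_, ?_⟩
  · refine sq_of_four two_ne_zero x ?_
    refine lt_of_le_of_lt hx ?_
    rw [← hw, w4, exp_lt_exp]
    norm_num
  · rw [← map_pow, hb, map_sub, map_ofNat]
  · rw [hw, valued_algebraMap]
    exact hP
  · rcases hD with hD | hD
    · left
      obtain ⟨e, rfl⟩ : ∃ e, D = 3 + 4 * e := ⟨D / 4, by omega⟩
      constructor
      · exact v_oddn w2 (by omega)
      · have e3 : ((3 + 4 * e : ℕ) : P.adicCompletion F) - 3 = 4 * (e : P.adicCompletion F) := by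
          push_cast
          ring
        rw [e3, map_mul, w4]
        calc exp (-2) * w (e : P.adicCompletion F) ≤ exp (-2) * 1 := mul_le_mul' le_rfl (w_nat e)
          _ = exp (-2) := mul_one _
    · right
      obtain ⟨e, rfl⟩ : ∃ e, D = 2 * (1 + 2 * e) := ⟨D / 4, by omega⟩
      have h1 : w ((1 + 2 * e : ℕ) : P.adicCompletion F) = 1 := v_oddn w2 (by omega)
      rw [Nat.cast_mul, map_mul, h1, mul_one]
      exact_mod_cast w2

end place

end Pool.Agent.L0h23.ED
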