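import Pool.Agent.L0h23.ED.Stm

/-!
# Congruences in `RR` modulo the powers of the two primes above two
-/

set_option autoImplicit false

namespace Pool.Agent.L0h23.ED

open Pool.Agent.Y698 Pool.Agent.Y698.SG Pool.Agent.L0h4.TW

/-- `RR / 𝔭³` -/
noncomputable def r8 : RR →+* ZMod 8 := ev 6 (by decide)
/-- `RR / 𝔭̄³` -/
noncomputable def s8 : RR →+* ZMod 8 := ev 3 (by decide)
/-- `RR / 𝔭̄⁴` -/
noncomputable def s16 : RR →+* ZMod 16 := ev 11 (by decide)

lemma r8_aR : r8 aR = 6 := ev_aR _ _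
lemma s8_aR : s8 aR = 3 := ev_aR _ _
lemma s16_aR : s16 aR = 11 := ev_aR _ _

lemma coR (x : RR) : x = ((cX x : ℤ) : RR) + ((cY x : ℤ) : RR) * aR := by
  apply Subtype.ext
  push_cast
  exact co x

lemma a_cube : aR ^ 3 = -(aR + 2) := by linear_combination (aR + 1) * aR_sq
lemma b_sq : (1 - aR) ^ 2 = -(1 + aR) := by linear_combination aR_sq
lemma b_cube : (1 - aR) ^ 3 = aR - 3 := by linear_combination (2 - aR) * aR_sq
lemma b_four' : (1 - aR) ^ 4 = 3 * aR - 1 := by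
  linear_combination (aR ^ 2 - 3 * aR + 1) * aR_sq
lemma abR : aR * (1 - aR) = 2 := by linear_combination -aR_sq

/-- congruences modulo `𝔭³` -/
lemma dvd_a3 (x : RR) : aR ^ 3 ∣ x ↔ r8 x = 0 := by
  constructor
  · rintro ⟨u, rfl⟩
    rw [map_mul, map_pow, r8_aR]
    have : (6 : ZMod 8) ^ 3 = 0 := by decide
    rw [this, zero_mul]
  · intro h
    have h1 : ((cX x + 6 * cY x : ℤ) : ZMod 8) = 0 := by
      have h2 := h
      unfold r8 at h2
      rw [ev_apply] at h2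
      push_cast
      linear_combination h2
    rw [ZMod.intCast_zmod_eq_zero_iff_dvd] at h1
    obtain ⟨k, hk⟩ := h1
    have e : cX x = 8 * k - 6 * cY x := by push_cast at hk; linarith
    have hx := coR x
    rw [e] at hx
    rw [a_cube, neg_dvd]
    refine ⟨(k : RR) * (1 - aR) ^ 3 * (-1) + cY x - (cY x : RR) * (1 - aR) ^ 3 * (-1), ?_⟩
    have e8 : (aR + 2) * ((1 - aR) ^ 3 * (-1)) = 8 := by
      have h3 : (aR * (1 - aR)) ^ 3 = 8 := by rw [abR]; norm_num
      linear_combination h3 - (1 - aR) ^ 3 * a_cube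
    push_cast at hx
    linear_combination hx - (k : RR) * e8 + (cY x : RR) * e8

/-- congruences modulo `𝔭̄³` -/
lemma dvd_b3 (x : RR) : (1 - aR) ^ 3 ∣ x ↔ s8 x = 0 := by
  constructor
  · rintro ⟨u, rfl⟩
    rw [map_mul, map_pow, map_sub, map_one, s8_aR]
    have : (1 - 3 : ZMod 8) ^ 3 = 0 := by decide
    rw [this, zero_mul]
  · intro h
    have h1 : ((cX x + 3 * cY x : ℤ) : ZMod 8) = 0 := by
      have h2 := h
      unfold s8 at h2
      rw [ev_apply] at h2
      push_cast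
      linear_combination h2
    rw [ZMod.intCast_zmod_eq_zero_iff_dvd] at h1
    obtain ⟨k, hk⟩ := h1
    have e : cX x = 8 * k - 3 * cY x := by push_cast at hk; linarith
    have hx := coR x
    rw [e] at hx
    refine ⟨(k : RR) * aR ^ 3 + cY x, ?_⟩
    have e8 : (1 - aR) ^ 3 * aR ^ 3 = 8 := by
      have h3 : (aR * (1 - aR)) ^ 3 = 8 := by rw [abR]; norm_num
      linear_combination h3
    push_cast at hx
    linear_combination hx - (k : RR) * e8 - (cY x : RR) * b_cube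

/-- congruences modulo `𝔭̄²` -/
lemma dvd_b2 (x : RR) : (1 - aR) ^ 2 ∣ x ↔ s8 x = 0 ∨ s8 x = 4 := by
  constructor
  · rintro ⟨u, rfl⟩
    rw [map_mul, map_pow, map_sub, map_one, s8_aR]
    generalize s8 u = t
    revert t
    decide
  · intro h
    have h0 : s8 x = ((cX x + 3 * cY x : ℤ) : ZMod 8) := by
      unfold s8
      rw [ev_apply]
      push_cast
      ring
    have h1 : ((cX x + 3 * cY x : ℤ) : ZMod 8) = ((0 : ℤ) : ZMod 8) ∨
        ((cX x + 3 * cY x : ℤ) : ZMod 8) = ((4 : ℤ) : ZMod 8) := by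
      rw [h0] at h
      push_cast at h ⊢
      exact h
    have h2 : (cX x + 3 * cY x) % 4 = 0 := by
      rcases h1 with h1 | h1
      · have := (ZMod.intCast_eq_intCast_iff _ _ _).1 h1
        unfold Int.ModEq at this
        omega
      · have := (ZMod.intCast_eq_intCast_iff _ _ _).1 h1
        unfold Int.ModEq at this
        omega
    obtain ⟨k, hk⟩ : ∃ k, cX x = 4 * k + cY x := ⟨(cX x - cY x) / 4, by omega⟩
    have hx := coR x
    rw [hk] at hx
    refine ⟨(k : RR) * aR ^ 2 - cY x, ?_⟩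
    have e4 : (1 - aR) ^ 2 * aR ^ 2 = 4 := by
      have h3 : (aR * (1 - aR)) ^ 2 = 4 := by rw [abR]; norm_num
      linear_combination h3
    push_cast at hx
    linear_combination hx - (k : RR) * e4 + (cY x : RR) * b_sq

/-- congruences modulo `𝔭̄⁴` -/
lemma dvd_b4 {x : RR} (h : (1 - aR) ^ 4 ∣ x) : s16 x = 0 := by
  obtain ⟨u, rfl⟩ := h
  rw [map_mul, map_pow, map_sub, map_one, s16_aR]
  have : (1 - 11 : ZMod 16) ^ 4 = 0 := by decide
  rw [this, zero_mul]

lemma s16_s8 (x : RR) : (ZMod.castHom (show 8 ∣ 16 by norm_num) (ZMod 8)) (s16 x) = s8 x := by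
  unfold s16 s8
  rw [ev_apply, ev_apply, map_add, map_mul, map_intCast, map_intCast]
  rfl

/-- congruences modulo `𝔭` -/
lemma dvd_a1 (x : RR) : aR ∣ x ↔ (r8 x).val % 2 = 0 := by
  constructor
  · rintro ⟨u, rfl⟩
    rw [map_mul, r8_aR]
    generalize r8 u = t
    revert t
    decide
  · intro h
    have h0 : r8 x = ((cX x + 6 * cY x : ℤ) : ZMod 8) := by
      unfold r8
      rw [ev_apply]
      push_cast
      ring
    have h2 : cX x % 2 = 0 := by
      rw [h0] at h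
      have h3 := ZMod.val_intCast (n := 8) (cX x + 6 * cY x)
      omega
    obtain ⟨k, hk⟩ : ∃ k, cX x = 2 * k := ⟨cX x / 2, by omega⟩
    have hx := coR x
    rw [hk] at hx
    refine ⟨(k : RR) * (1 - aR) + cY x, ?_⟩
    push_cast at hx
    linear_combination hx - (k : RR) * abR

/-- congruences modulo `𝔭̄` -/
lemma dvd_b1 (x : RR) : (1 - aR) ∣ x ↔ (s8 x).val % 2 = 0 := by
  constructor
  · rintro ⟨u, rfl⟩
    rw [map_mul, map_sub, map_one, s8_aR]
    generalize s8 u = t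
    revert t
    decide
  · intro h
    have h0 : s8 x = ((cX x + 3 * cY x : ℤ) : ZMod 8) := by
      unfold s8
      rw [ev_apply]
      push_cast
      ring
    have h2 : (cX x + cY x) % 2 = 0 := by
      rw [h0] at h
      have h3 := ZMod.val_intCast (n := 8) (cX x + 3 * cY x)
      omega
    obtain ⟨k, hk⟩ : ∃ k, cX x = 2 * k - cY x := ⟨(cX x + cY x) / 2, by omega⟩
    have hx := coR x
    rw [hk] at hx
    refine ⟨(k : RR) * aR - cY x, ?_⟩
    push_cast at hx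
    linear_combination hx - (k : RR) * abR

/-- the values at `𝔭` of a normalised element -/
def C5 (x : ZMod 8) (l : ZMod 2) : Prop := (x = 1 ∧ l = 0) ∨ (x = 5 ∧ l = 1)
/-- the values at `𝔭̄` -/
def C8 (x : ZMod 8) (n l : ZMod 2) : Prop :=
  (x = 1 ∧ n = 0 ∧ l = 0) ∨ (x = 5 ∧ n = 0 ∧ l = 1) ∨ (x = 3 ∧ n = 1 ∧ l = 1) ∨
    (x = 7 ∧ n = 1 ∧ l = 0)

instance (x : ZMod 8) (l : ZMod 2) : Decidable (C5 x l) := by unfold C5; infer_instance
instance (x : ZMod 8) (n l : ZMod 2) : Decidable (C8 x n l) := by unfold C8; infer_instance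

lemma C5.mul {x y : ZMod 8} {l m : ZMod 2} (h : C5 x l) (h' : C5 y m) : C5 (x * y) (l + m) := by
  revert x y l m
  decide

lemma C8.mul {x y : ZMod 8} {n l n' l' : ZMod 2} (h : C8 x n l) (h' : C8 y n' l') :
    C8 (x * y) (n + n') (l + l') := by
  rcases h with ⟨rfl, rfl, rfl⟩ | ⟨rfl, rfl, rfl⟩ | ⟨rfl, rfl, rfl⟩ | ⟨rfl, rfl, rfl⟩ <;>
    rcases h' with ⟨rfl, rfl, rfl⟩ | ⟨rfl, rfl, rfl⟩ | ⟨rfl, rfl, rfl⟩ | ⟨rfl, rfl, rfl⟩ <;> decide

lemma C5.prod {ι : Type} (T : Finset ι) {π : ι → RR} {l : ι → ZMod 2}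
    (h : ∀ i ∈ T, C5 (r8 (π i)) (l i)) : C5 (r8 (∏ i ∈ T, π i)) (∑ i ∈ T, l i) := by
  classical
  induction T using Finset.induction_on with
  | empty => rw [Finset.prod_empty, Finset.sum_empty, map_one]; decide
  | insert i T hi ih =>
    rw [Finset.prod_insert hi, Finset.sum_insert hi, map_mul]
    exact (h i (Finset.mem_insert_self _ _)).mul (ih fun j hj => h j (Finset.mem_insert_of_mem hj))

lemma C8.prod {ι : Type} (T : Finset ι) {π : ι → RR} {n l : ι → ZMod 2}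
    (h : ∀ i ∈ T, C8 (s8 (π i)) (n i) (l i)) :
    C8 (s8 (∏ i ∈ T, π i)) (∑ i ∈ T, n i) (∑ i ∈ T, l i) := by
  classical
  induction T using Finset.induction_on with
  | empty => rw [Finset.prod_empty, Finset.sum_empty, Finset.sum_empty, map_one]; decide
  | insert i T hi ih =>
    rw [Finset.prod_insert hi, Finset.sum_insert hi, Finset.sum_insert hi, map_mul]
    exact (h i (Finset.mem_insert_self _ _)).mul (ih fun j hj => h j (Finset.mem_insert_of_mem hj))

/-- normalised elements -/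
lemma c5_of {x : RR} (h : N1 x) : C5 (r8 x) (lam x) := by
  have h1 := dvd_a3 (x - 1)
  rw [map_sub, map_one, sub_eq_zero] at h1
  by_cases h2 : aR ^ 3 ∣ x - 1
  · left
    refine ⟨h1.1 h2, ?_⟩
    unfold lam
    rw [if_pos h2]
  · right
    constructor
    · have h3 : r8 x ≠ 1 := fun h4 => h2 (h1.2 h4)
      obtain ⟨u, rfl⟩ := h
      rw [map_add, map_one, map_mul, map_pow, r8_aR] at h3 ⊢
      revert h3
      generalize r8 u = t
      revert t
      decide
    · unfold lam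
      rw [if_neg h2]

/-- odd elements -/
lemma c8_of {x : RR} {n : ZMod 2} (hx : ¬ (1 - aR) ∣ x) (h0 : (1 - aR) ^ 2 ∣ x - 1 ↔ n = 0)
    (h1 : (1 - aR) ^ 2 ∣ x + 1 ↔ n = 1) : C8 (s8 x) n (lab x) := by
  rw [dvd_b2, map_sub, map_one] at h0
  rw [dvd_b2, map_add, map_one] at h1
  rw [dvd_b1] at hx
  have h2 := dvd_b3 (x - 1)
  have h3 := dvd_b3 (x + 1)
  rw [map_sub, map_one] at h2
  rw [map_add, map_one] at h3
  have hl : lab x = if s8 x - 1 = 0 ∨ s8 x + 1 = 0 then 0 else 1 := by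
    unfold lab
    simp only [h2, h3]
  rw [hl]
  revert h0 h1 hx
  generalize s8 x = t
  revert t n
  decide

lemma nR_a : nR aR = 2 := by unfold nR; rw [cXY_aR.1, cXY_aR.2]; norm_num

lemma nR_b : nR (1 - aR) = 2 := by
  have h := mul_cj (1 - aR)
  have e : cj (1 - aR) = aR := by
    have h5 : cj aR = 1 - aR := by
      have h6 : cj aR = (cX aR : RR) + (cY aR : RR) * (1 - aR) := rfl
      rw [h6, cXY_aR.1, cXY_aR.2]
      push_cast
      ring
    rw [map_sub, map_one, h5]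
    ring
  rw [e] at h
  have h2 : ((nR (1 - aR) : ℤ) : RR) = ((2 : ℤ) : RR) := by
    rw [← h]
    push_cast
    linear_combination abR
  have h3 := congrArg cX h2
  rwa [(cXY_int _).1, (cXY_int _).1] at h3

lemma odd_a {x : RR} (h : nR x % 2 = 1) : ¬ aR ∣ x := by
  rintro ⟨u, rfl⟩
  rw [nR_mul, nR_a] at h
  omega

lemma odd_b {x : RR} (h : nR x % 2 = 1) : ¬ (1 - aR) ∣ x := by
  rintro ⟨u, rfl⟩
  rw [nR_mul, nR_b] at h
  omega

lemma D12_odd {x : RR} {p : ℕ} (h : D2 x p ∨ D1 x p) : nR x % 2 = 1 := by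
  rcases h with h | h
  · rw [h.nR]
    have := sq_mod h.inp.odd
    omega
  · rw [h.nR]
    have := h.odd
    omega

section
variable {Q P : Finset ℕ} {ϖ : ℕ → RR}

lemma d12 (h : Dt Q P ϖ) {i : ℕ × Bool} (hi : i ∈ ix Q P) :
    D2 (pfx Q ϖ i) i.1 ∨ D1 (pfx Q ϖ i) i.1 := by
  rcases h.kind hi with h1 | h1
  · exact Or.inl h1.2
  · exact Or.inr h1.2

lemma c5_pfx (h : Dt Q P ϖ) {i : ℕ × Bool} (hi : i ∈ ix Q P) :
    C5 (r8 (pfx Q ϖ i)) (kl (pfx Q ϖ) i) := c5_of (h.fx.pd i hi).n1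

lemma c8_pfx (hR : S_R2) (h : Dt Q P ϖ) {i : ℕ × Bool} (hi : i ∈ ix Q P) :
    C8 (s8 (pfx Q ϖ i)) (kn (pfx Q ϖ) i) (kb (pfx Q ϖ) i) :=
  c8_of (odd_b (D12_odd (d12 h hi))) (hR.nt0 _ _ (d12 h hi)) (hR.nt1 _ _ (d12 h hi))

end

end Pool.Agent.L0h23.ED
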